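import Mathlib

/-! Abstract counting for systems of circles and lines on a finite set of points. -/

namespace Pool.Agent.U272.Circ

open Finset

noncomputable section

open scoped Classical

/-- the combinatorial properties of circles and lines determined by a finite planar set -/
structure Sys {α : Type*} [DecidableEq α] (P : Finset α) (CC LL : Finset (Finset α)) : Prop where
  cP : ∀ C ∈ CC, C ⊆ P
  lP : ∀ L ∈ LL, L ⊆ P
  c3 : ∀ C ∈ CC, 3 ≤ C.card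
  l2 : ∀ L ∈ LL, 2 ≤ L.card
  disj : Disjoint CC LL
  lu : ∀ L ∈ LL, ∀ L' ∈ LL, ∀ x y, x ≠ y → x ∈ L → y ∈ L → x ∈ L' → y ∈ L' → L = L'
  le : ∀ x ∈ P, ∀ y ∈ P, x ≠ y → ∃ L ∈ LL, x ∈ L ∧ y ∈ L
  bu : ∀ B ∈ CC ∪ LL, ∀ B' ∈ CC ∪ LL, ∀ x y z, x ≠ y → x ≠ z → y ≠ z →
    x ∈ B → y ∈ B → z ∈ B → x ∈ B' → y ∈ B' → z ∈ B' → B = B'
  be : ∀ x ∈ P, ∀ y ∈ P, ∀ z ∈ P, x ≠ y → x ≠ z → y ≠ z →
    ∃ B ∈ CC ∪ LL, x ∈ B ∧ y ∈ B ∧ z ∈ B
  m0 : ∀ p ∈ P, (3 : ℤ) ≤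
    ∑ B ∈ (CC ∪ LL.filter (fun L => 3 ≤ L.card)).filter (fun B => p ∈ B), (4 - (B.card : ℤ))
  m1 : ∀ p ∈ P, (3 : ℤ) ≤ ∑ B ∈ CC.filter (fun B => p ∈ B), (4 - (B.card : ℤ)) +
      ∑ L ∈ LL.filter (fun B => p ∈ B), (3 - (L.card : ℤ))

variable {α : Type*} [DecidableEq α]

lemma dbl (X : Finset (Finset α)) (S : Finset α) (g : Finset α → ℚ) :
    ∑ p ∈ S, ∑ B ∈ X.filter (fun B => p ∈ B), g B = ∑ B ∈ X, ((B ∩ S).card : ℚ) * g B := by
  simp_rw [sum_filter]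
  rw [sum_comm]
  apply sum_congr rfl
  intro B _
  rw [← sum_filter, sum_const, nsmul_eq_mul]
  congr 3
  ext x
  simp [and_comm]

lemma card_offDiag_q (S : Finset α) : ((S.offDiag).card : ℚ) = (S.card : ℚ) * (S.card - 1) := by
  rw [offDiag_card, Nat.cast_sub (Nat.le_mul_self _)]
  push_cast
  ring

lemma filter_offDiag (S B : Finset α) :
    (S.offDiag).filter (fun e => e.1 ∈ B ∧ e.2 ∈ B) = (B ∩ S).offDiag := by
  ext ⟨x, y⟩
  simp only [mem_filter, mem_offDiag, mem_inter]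
  tauto

namespace Sys

variable {P : Finset α} {CC LL : Finset (Finset α)} (h : Sys P CC LL)

include h

/-- pairs seen from a point -/
lemma pt {q : α} (hq : q ∈ P) (E : Finset (α × α))
    (hE : ∀ e ∈ E, e.1 ∈ P ∧ e.2 ∈ P ∧ e.1 ≠ q ∧ e.2 ≠ q ∧ e.1 ≠ e.2) :
    (E.card : ℚ) = ∑ B ∈ (CC ∪ LL).filter (fun B => q ∈ B),
      ((E.filter (fun e => e.1 ∈ B ∧ e.2 ∈ B)).card : ℚ) := by
  have h1 : ∀ B : Finset α, ((E.filter (fun e => e.1 ∈ B ∧ e.2 ∈ B)).card : ℚ) =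
      ∑ e ∈ E, if e.1 ∈ B ∧ e.2 ∈ B then (1 : ℚ) else 0 := by
    intro B
    rw [card_filter]
    push_cast
    rfl
  simp_rw [h1]
  rw [sum_comm]
  rw [card_eq_sum_ones]
  push_cast
  apply sum_congr rfl
  intro e he
  obtain ⟨e1, e2, e3, e4, e5⟩ := hE e he
  obtain ⟨B, hB, hqB, hxB, hyB⟩ := h.be q hq e.1 e1 e.2 e2 e3.symm e4.symm e5
  rw [← sum_filter, sum_const, nsmul_eq_mul, mul_one]
  have : ((CC ∪ LL).filter (fun B => q ∈ B)).filter (fun B => e.1 ∈ B ∧ e.2 ∈ B) = {B} := by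
    ext B'
    rw [mem_filter, mem_filter, mem_singleton]
    constructor
    · rintro ⟨⟨hB', hq'⟩, hx', hy'⟩
      exact h.bu B' hB' B hB q e.1 e.2 e3.symm e4.symm e5 hq' hx' hy' hqB hxB hyB
    · rintro rfl
      exact ⟨⟨hB, hqB⟩, hxB, hyB⟩
  rw [this, card_singleton]
  norm_num

/-- pairs and lines -/
lemma lp (E : Finset (α × α)) (hE : ∀ e ∈ E, e.1 ∈ P ∧ e.2 ∈ P ∧ e.1 ≠ e.2) :
    (E.card : ℚ) = ∑ B ∈ LL, ((E.filter (fun e => e.1 ∈ B ∧ e.2 ∈ B)).card : ℚ) := by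
  have h1 : ∀ B : Finset α, ((E.filter (fun e => e.1 ∈ B ∧ e.2 ∈ B)).card : ℚ) =
      ∑ e ∈ E, if e.1 ∈ B ∧ e.2 ∈ B then (1 : ℚ) else 0 := by
    intro B
    rw [card_filter]
    push_cast
    rfl
  simp_rw [h1]
  rw [sum_comm]
  rw [card_eq_sum_ones]
  push_cast
  apply sum_congr rfl
  intro e he
  obtain ⟨e1, e2, e5⟩ := hE e he
  obtain ⟨B, hB, hxB, hyB⟩ := h.le e.1 e1 e.2 e2 e5
  rw [← sum_filter, sum_const, nsmul_eq_mul, mul_one]
  have : LL.filter (fun B => e.1 ∈ B ∧ e.2 ∈ B) = {B} := by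
    ext B'
    rw [mem_filter, mem_singleton]
    constructor
    · rintro ⟨hB', hx', hy'⟩
      exact h.lu B' hB' B hB e.1 e.2 e5 hx' hy' hxB hyB
    · rintro rfl
      exact ⟨hB, hxB, hyB⟩
  rw [this, card_singleton]
  norm_num

lemma bP {B : Finset α} (hB : B ∈ CC ∪ LL) : B ⊆ P := by
  rcases mem_union.1 hB with hB | hB
  · exact h.cP B hB
  · exact h.lP B hB

lemma inter_sdiff {B : Finset α} (hB : B ∈ CC ∪ LL) (M : Finset α) : B ∩ (P \ M) = B \ M := by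
  have := h.bP hB
  ext x
  simp only [mem_inter, mem_sdiff]
  constructor
  · rintro ⟨h1, h2, h3⟩; exact ⟨h1, h3⟩
  · rintro ⟨h1, h3⟩; exact ⟨h1, this h1, h3⟩

/-- pairs of a set `S` seen from a point outside `S` -/
lemma pt_offDiag {q : α} (hq : q ∈ P) {S : Finset α} (hS : S ⊆ P) (hqS : q ∉ S) :
    (S.card : ℚ) * (S.card - 1) = ∑ B ∈ (CC ∪ LL).filter (fun B => q ∈ B),
      ((B ∩ S).card : ℚ) * ((B ∩ S).card - 1) := by
  rw [← card_offDiag_q, h.pt hq S.offDiag]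
  · apply sum_congr rfl
    intro B _
    rw [filter_offDiag, card_offDiag_q]
  · intro e he
    rw [mem_offDiag] at he
    exact ⟨hS he.1, hS he.2.1, fun h => hqS (h ▸ he.1), fun h => hqS (h ▸ he.2.1), he.2.2⟩

lemma T21 {M : Finset α} (hM : M ⊆ P) :
    ∑ B ∈ CC ∪ LL, ((B ∩ M).card : ℚ) * ((B ∩ M).card - 1) * (B \ M).card =
      (M.card : ℚ) * (M.card - 1) * (P \ M).card := by
  have h1 : ∑ q ∈ P \ M, (M.card : ℚ) * (M.card - 1) = ∑ q ∈ P \ M,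
      ∑ B ∈ (CC ∪ LL).filter (fun B => q ∈ B), ((B ∩ M).card : ℚ) * ((B ∩ M).card - 1) := by
    apply sum_congr rfl
    intro q hq
    rw [mem_sdiff] at hq
    exact h.pt_offDiag hq.1 hM hq.2
  rw [dbl, sum_const, nsmul_eq_mul] at h1
  rw [mul_comm, h1]
  apply sum_congr rfl
  intro B hB
  rw [h.inter_sdiff hB]
  ring

lemma T12 {M : Finset α} (hM : M ⊆ P) :
    ∑ B ∈ CC ∪ LL, ((B ∩ M).card : ℚ) * ((B \ M).card * ((B \ M).card - 1)) =
      (M.card : ℚ) * ((P \ M).card * ((P \ M).card - 1)) := by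
  have h1 : ∑ q ∈ M, ((P \ M).card : ℚ) * ((P \ M).card - 1) = ∑ q ∈ M,
      ∑ B ∈ (CC ∪ LL).filter (fun B => q ∈ B), ((B ∩ (P \ M)).card : ℚ) *
        ((B ∩ (P \ M)).card - 1) := by
    apply sum_congr rfl
    intro q hq
    exact h.pt_offDiag (hM hq) sdiff_subset (fun hh => (mem_sdiff.1 hh).2 hq)
  rw [dbl, sum_const, nsmul_eq_mul] at h1
  rw [h1]
  apply sum_congr rfl
  intro B hB
  rw [h.inter_sdiff hB]

lemma T03 (M : Finset α) :
    ∑ B ∈ CC ∪ LL, ((B \ M).card : ℚ) * (((B \ M).card - 1) * ((B \ M).card - 2)) =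
      ((P \ M).card : ℚ) * (((P \ M).card - 1) * ((P \ M).card - 2)) := by
  have h1 : ∑ q ∈ P \ M, (((P \ M).card : ℚ) - 1) * ((P \ M).card - 2) = ∑ q ∈ P \ M,
      ∑ B ∈ (CC ∪ LL).filter (fun B => q ∈ B), (((B \ M).card : ℚ) - 1) *
        ((B \ M).card - 2) := by
    apply sum_congr rfl
    intro q hq
    have hq' := mem_sdiff.1 hq
    have key := h.pt_offDiag hq'.1 (S := (P \ M).erase q)
      ((erase_subset _ _).trans sdiff_subset) (notMem_erase _ _)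
    have e1 : ((((P \ M).erase q).card : ℕ) : ℚ) = ((P \ M).card : ℚ) - 1 := by
      rw [← card_erase_add_one hq]; push_cast; ring
    rw [e1] at key
    have e2 : (((P \ M).card : ℚ) - 1) * ((P \ M).card - 2) =
        (((P \ M).card : ℚ) - 1) * ((P \ M).card - 1 - 1) := by ring
    rw [e2, key]
    apply sum_congr rfl
    intro B hB
    rw [mem_filter] at hB
    have e3 : B ∩ (P \ M).erase q = (B \ M).erase q := by
      rw [← h.inter_sdiff hB.1 M]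
      ext x
      simp only [mem_inter, mem_erase]
      tauto
    have e4 : q ∈ B \ M := mem_sdiff.2 ⟨hB.2, hq'.2⟩
    have e5 : ((((B \ M).erase q).card : ℕ) : ℚ) = ((B \ M).card : ℚ) - 1 := by
      rw [← card_erase_add_one e4]; push_cast; ring
    rw [e3, e5]
    ring
  rw [dbl, sum_const, nsmul_eq_mul] at h1
  rw [h1]
  apply sum_congr rfl
  intro B hB
  rw [h.inter_sdiff hB]

lemma L20 {M : Finset α} (hM : M ⊆ P) :
    ∑ B ∈ LL, ((B ∩ M).card : ℚ) * ((B ∩ M).card - 1) = (M.card : ℚ) * (M.card - 1) := by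
  rw [← card_offDiag_q M, h.lp M.offDiag]
  · apply sum_congr rfl
    intro B _
    rw [filter_offDiag, card_offDiag_q]
  · intro e he
    rw [mem_offDiag] at he
    exact ⟨hM he.1, hM he.2.1, he.2.2⟩

lemma L02 (M : Finset α) :
    ∑ B ∈ LL, ((B \ M).card : ℚ) * ((B \ M).card - 1) =
      ((P \ M).card : ℚ) * ((P \ M).card - 1) := by
  rw [← h.L20 (M := P \ M) sdiff_subset]
  apply sum_congr rfl
  intro B hB
  rw [h.inter_sdiff (mem_union_right _ hB)]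

lemma L11 {M : Finset α} (hM : M ⊆ P) :
    ∑ B ∈ LL, ((B ∩ M).card : ℚ) * (B \ M).card = (M.card : ℚ) * (P \ M).card := by
  have := h.lp (M ×ˢ (P \ M)) (by
    intro e he
    rw [mem_product, mem_sdiff] at he
    exact ⟨hM he.1, he.2.1, fun hh => he.2.2 (hh ▸ he.1)⟩)
  rw [card_product] at this
  push_cast at this
  rw [this]
  apply sum_congr rfl
  intro B hB
  rw [← h.inter_sdiff (mem_union_right _ hB)]
  have e : (M ×ˢ (P \ M)).filter (fun e => e.1 ∈ B ∧ e.2 ∈ B) = (B ∩ M) ×ˢ (B ∩ (P \ M)) := by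
    ext ⟨x, y⟩
    simp only [mem_filter, mem_product, mem_inter]
    tauto
  rw [e, card_product]
  push_cast
  rfl

lemma M0 {S : Finset α} (hS : S ⊆ P) :
    3 * (S.card : ℚ) ≤ ∑ B ∈ CC, ((B ∩ S).card : ℚ) * (4 - B.card) +
      ∑ B ∈ LL, (if 3 ≤ B.card then ((B ∩ S).card : ℚ) * (4 - B.card) else 0) := by
  have h1 : ∑ q ∈ S, (3 : ℚ) ≤ ∑ q ∈ S,
      ∑ B ∈ (CC ∪ LL.filter (fun L => 3 ≤ L.card)).filter (fun B => q ∈ B),
        (4 - (B.card : ℚ)) := by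
    apply sum_le_sum
    intro q hq
    have := h.m0 q (hS hq)
    exact_mod_cast this
  rw [dbl, sum_const, nsmul_eq_mul] at h1
  rw [mul_comm]
  refine h1.trans (le_of_eq ?_)
  rw [sum_union (disjoint_of_subset_right (filter_subset _ _) h.disj), sum_filter]

lemma M1 {S : Finset α} (hS : S ⊆ P) :
    3 * (S.card : ℚ) ≤ ∑ B ∈ CC, ((B ∩ S).card : ℚ) * (4 - B.card) +
      ∑ B ∈ LL, ((B ∩ S).card : ℚ) * (3 - B.card) := by
  have h1 : ∑ q ∈ S, (3 : ℚ) ≤ ∑ q ∈ S,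
      (∑ B ∈ CC.filter (fun B => q ∈ B), (4 - (B.card : ℚ)) +
       ∑ B ∈ LL.filter (fun B => q ∈ B), (3 - (B.card : ℚ))) := by
    apply sum_le_sum
    intro q hq
    have := h.m1 q (hS hq)
    exact_mod_cast this
  rw [sum_add_distrib, dbl, dbl, sum_const, nsmul_eq_mul] at h1
  rw [mul_comm]
  exact h1

end Sys

end

end Pool.Agent.U272.Circ
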