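import Mathlib
import Pool.Agent.U272.Circ.Abs

/-! The weighted counting inequality and the direct bounds from one large block. -/

namespace Pool.Agent.U272.Circ

open Finset

noncomputable section

open scoped Classical

/-- weight of a circle with `i` points in `M` and `j` outside -/
def wC (t21 t12 t03 u v : ℚ) (i j : ℕ) : ℚ :=
  t21 * ((i : ℚ) * (i - 1) * j) + t12 * (i * (j * (j - 1))) + t03 * (j * ((j - 1) * (j - 2)))
   + (u * i + v * j) * (4 - (i + j))

/-- weight of a line with `i` points in `M` and `j` outside -/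
def wL (t21 t12 t03 u0 v0 u1 v1 l20 l11 l02 : ℚ) (i j : ℕ) : ℚ :=
  t21 * ((i : ℚ) * (i - 1) * j) + t12 * (i * (j * (j - 1))) + t03 * (j * ((j - 1) * (j - 2)))
   + (if 3 ≤ i + j then (u0 * i + v0 * j) * (4 - (i + j)) else 0)
   + (u1 * i + v1 * j) * (3 - (i + j)) + l20 * (i * (i - 1)) + l11 * (i * j)
   + l02 * (j * (j - 1))

variable {α : Type*} [DecidableEq α]

namespace Sys

variable {P : Finset α} {CC LL : Finset (Finset α)} (h : Sys P CC LL)

include h

theorem cert {M : Finset α} (hM : M ⊆ P) (t21 t12 t03 u0 v0 u1 v1 l20 l11 l02 : ℚ)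
    (hu0 : 0 ≤ u0) (hv0 : 0 ≤ v0) (hu1 : 0 ≤ u1) (hv1 : 0 ≤ v1) {a b : ℚ}
    (ha : (M.card : ℚ) = a) (hb : ((P \ M).card : ℚ) = b) :
    t21 * (a * (a - 1) * b) + t12 * (a * (b * (b - 1))) + t03 * (b * ((b - 1) * (b - 2)))
      + 3 * ((u0 + u1) * a + (v0 + v1) * b) + l20 * (a * (a - 1)) + l11 * (a * b)
      + l02 * (b * (b - 1)) ≤
    ∑ C ∈ CC, wC t21 t12 t03 (u0 + u1) (v0 + v1) (C ∩ M).card (C \ M).card +
    ∑ L ∈ LL, wL t21 t12 t03 u0 v0 u1 v1 l20 l11 l02 (L ∩ M).card (L \ M).card := by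
  have hT21 := h.T21 hM
  have hT12 := h.T12 hM
  have hT03 := h.T03 M
  rw [sum_union h.disj] at hT21 hT12 hT03
  have hL20 := h.L20 hM
  have hL11 := h.L11 hM
  have hL02 := h.L02 M
  have hM0a := h.M0 hM
  have hM0b := h.M0 (S := P \ M) sdiff_subset
  have hM1a := h.M1 hM
  have hM1b := h.M1 (S := P \ M) sdiff_subset
  rw [ha, hb] at hT21 hT12 hL11
  rw [hb] at hT03 hL02 hM0b hM1b
  rw [ha] at hL20 hM0a hM1a
  have hcard : ∀ B : Finset α, (B.card : ℚ) = ((B ∩ M).card : ℚ) + (B \ M).card := by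
    intro B
    rw [← card_inter_add_card_sdiff B M]
    push_cast
    rfl
  have hcardN : ∀ B : Finset α, B.card = (B ∩ M).card + (B \ M).card := by
    intro B
    exact (card_inter_add_card_sdiff B M).symm
  have e1 : ∀ X : Finset (Finset α), X ⊆ CC ∪ LL → ∀ g : Finset α → ℚ,
      ∑ B ∈ X, ((B ∩ (P \ M)).card : ℚ) * g B = ∑ B ∈ X, ((B \ M).card : ℚ) * g B := by
    intro X hX g
    apply sum_congr rfl
    intro B hB
    rw [h.inter_sdiff (hX hB)]
  have e2 : ∑ B ∈ LL, (if 3 ≤ B.card then ((B ∩ (P \ M)).card : ℚ) * (4 - B.card) else 0) =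
      ∑ B ∈ LL, (if 3 ≤ B.card then ((B \ M).card : ℚ) * (4 - B.card) else 0) := by
    apply sum_congr rfl
    intro B hB
    rw [h.inter_sdiff (mem_union_right _ hB)]
  rw [e1 CC subset_union_left, e2] at hM0b
  rw [e1 CC subset_union_left, e1 LL subset_union_right] at hM1b
  have eC : ∑ C ∈ CC, wC t21 t12 t03 (u0 + u1) (v0 + v1) (C ∩ M).card (C \ M).card =
      t21 * ∑ B ∈ CC, ((B ∩ M).card : ℚ) * ((B ∩ M).card - 1) * (B \ M).card
      + t12 * ∑ B ∈ CC, ((B ∩ M).card : ℚ) * ((B \ M).card * ((B \ M).card - 1))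
      + t03 * ∑ B ∈ CC, ((B \ M).card : ℚ) * (((B \ M).card - 1) * ((B \ M).card - 2))
      + (u0 + u1) * ∑ B ∈ CC, ((B ∩ M).card : ℚ) * (4 - B.card)
      + (v0 + v1) * ∑ B ∈ CC, ((B \ M).card : ℚ) * (4 - B.card) := by
    simp_rw [mul_sum]
    rw [← sum_add_distrib, ← sum_add_distrib, ← sum_add_distrib, ← sum_add_distrib]
    apply sum_congr rfl
    intro B _
    rw [hcard B]
    unfold wC
    ring
  have eL : ∑ L ∈ LL, wL t21 t12 t03 u0 v0 u1 v1 l20 l11 l02 (L ∩ M).card (L \ M).card =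
      t21 * ∑ B ∈ LL, ((B ∩ M).card : ℚ) * ((B ∩ M).card - 1) * (B \ M).card
      + t12 * ∑ B ∈ LL, ((B ∩ M).card : ℚ) * ((B \ M).card * ((B \ M).card - 1))
      + t03 * ∑ B ∈ LL, ((B \ M).card : ℚ) * (((B \ M).card - 1) * ((B \ M).card - 2))
      + u0 * ∑ B ∈ LL, (if 3 ≤ B.card then ((B ∩ M).card : ℚ) * (4 - B.card) else 0)
      + v0 * ∑ B ∈ LL, (if 3 ≤ B.card then ((B \ M).card : ℚ) * (4 - B.card) else 0)
      + u1 * ∑ B ∈ LL, ((B ∩ M).card : ℚ) * (3 - B.card)
      + v1 * ∑ B ∈ LL, ((B \ M).card : ℚ) * (3 - B.card)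
      + l20 * ∑ B ∈ LL, ((B ∩ M).card : ℚ) * ((B ∩ M).card - 1)
      + l11 * ∑ B ∈ LL, ((B ∩ M).card : ℚ) * (B \ M).card
      + l02 * ∑ B ∈ LL, ((B \ M).card : ℚ) * ((B \ M).card - 1) := by
    simp_rw [mul_sum]
    rw [← sum_add_distrib, ← sum_add_distrib, ← sum_add_distrib, ← sum_add_distrib,
      ← sum_add_distrib, ← sum_add_distrib, ← sum_add_distrib, ← sum_add_distrib,
      ← sum_add_distrib]
    apply sum_congr rfl
    intro B _
    unfold wL
    rw [← hcardN B, hcard B]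
    split_ifs <;> ring
  rw [eC, eL]
  have k1 := mul_le_mul_of_nonneg_left hM0a hu0
  have k2 := mul_le_mul_of_nonneg_left hM0b hv0
  have k3 := mul_le_mul_of_nonneg_left hM1a hu1
  have k4 := mul_le_mul_of_nonneg_left hM1b hv1
  linear_combination k1 + k2 + k3 + k4 + (-t21) * hT21 + (-t12) * hT12 + (-t03) * hT03
    + (-l20) * hL20 + (-l11) * hL11 + (-l02) * hL02

/-- the weighted counting inequality relative to a circle `M` -/
theorem cert_circle {M : Finset α} (hM : M ∈ CC) (t21 t12 t03 u0 v0 u1 v1 l20 l11 l02 : ℚ)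
    (hu0 : 0 ≤ u0) (hv0 : 0 ≤ v0) (hu1 : 0 ≤ u1) (hv1 : 0 ≤ v1) {a b : ℚ}
    (ha : (M.card : ℚ) = a) (hb : ((P \ M).card : ℚ) = b)
    (hC : ∀ C ∈ CC, C ≠ M →
      wC t21 t12 t03 (u0 + u1) (v0 + v1) (C ∩ M).card (C \ M).card ≤ 1)
    (hL : ∀ L ∈ LL, wL t21 t12 t03 u0 v0 u1 v1 l20 l11 l02 (L ∩ M).card (L \ M).card ≤ 0) :
    t21 * (a * (a - 1) * b) + t12 * (a * (b * (b - 1))) + t03 * (b * ((b - 1) * (b - 2)))
      + 3 * ((u0 + u1) * a + (v0 + v1) * b) + l20 * (a * (a - 1)) + l11 * (a * b)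
      + l02 * (b * (b - 1)) ≤ (CC.card : ℚ) - 1 + (u0 + u1) * (a * (4 - a)) := by
  refine (h.cert (h.cP M hM) t21 t12 t03 u0 v0 u1 v1 l20 l11 l02 hu0 hv0 hu1 hv1 ha hb).trans ?_
  have h1 : ∑ L ∈ LL, wL t21 t12 t03 u0 v0 u1 v1 l20 l11 l02 (L ∩ M).card (L \ M).card ≤ 0 :=
    sum_nonpos hL
  have h2 : ∑ C ∈ CC.erase M, wC t21 t12 t03 (u0 + u1) (v0 + v1) (C ∩ M).card (C \ M).card ≤
      (CC.card : ℚ) - 1 := by
    have : ∑ C ∈ CC.erase M, wC t21 t12 t03 (u0 + u1) (v0 + v1) (C ∩ M).card (C \ M).card ≤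
        ∑ C ∈ CC.erase M, (1 : ℚ) := by
      apply sum_le_sum
      intro C hC'
      rw [mem_erase] at hC'
      exact hC C hC'.2 hC'.1
    refine this.trans (le_of_eq ?_)
    rw [sum_const, nsmul_eq_mul, mul_one, ← card_erase_add_one hM]
    push_cast
    ring
  rw [← add_sum_erase _ _ hM]
  have h3 : wC t21 t12 t03 (u0 + u1) (v0 + v1) (M ∩ M).card (M \ M).card =
      (u0 + u1) * (a * (4 - a)) := by
    rw [inter_self, Finset.sdiff_self, card_empty]
    unfold wC
    rw [ha]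
    push_cast
    ring
  rw [h3]
  linarith

/-- the weighted counting inequality without a distinguished circle -/
theorem cert_plain (t v0 v1 l : ℚ) (hv0 : 0 ≤ v0) (hv1 : 0 ≤ v1) {n : ℚ}
    (hn : (P.card : ℚ) = n)
    (hC : ∀ C ∈ CC, t * (C.card * ((C.card - 1) * (C.card - 2))) +
      (v0 + v1) * C.card * (4 - C.card) ≤ 1)
    (hL : ∀ L ∈ LL, t * (L.card * ((L.card - 1) * (L.card - 2))) +
      (if 3 ≤ L.card then (v0 * L.card) * (4 - L.card) else 0) + v1 * L.card * (3 - L.card)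
      + l * (L.card * (L.card - 1)) ≤ 0) :
    t * (n * ((n - 1) * (n - 2))) + 3 * ((v0 + v1) * n) + l * (n * (n - 1)) ≤ CC.card := by
  have key := h.cert (M := ∅) (empty_subset _) 0 0 t 0 v0 0 v1 0 0 l le_rfl hv0 le_rfl hv1
    (a := 0) (b := n) (by simp) (by rw [sdiff_empty]; exact hn)
  have h1 : ∑ L ∈ LL, wL 0 0 t 0 v0 0 v1 0 0 l (L ∩ ∅).card (L \ ∅).card ≤ 0 := by
    apply sum_nonpos
    intro L hL'
    have := hL L hL'
    rw [inter_empty, card_empty, sdiff_empty]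
    unfold wL
    rw [zero_add]
    push_cast
    refine le_trans (le_of_eq ?_) this
    split_ifs <;> ring
  have h2 : ∑ C ∈ CC, wC 0 0 t (0 + 0) (v0 + v1) (C ∩ ∅).card (C \ ∅).card ≤ CC.card := by
    have : ∑ C ∈ CC, wC 0 0 t (0 + 0) (v0 + v1) (C ∩ ∅).card (C \ ∅).card ≤
        ∑ C ∈ CC, (1 : ℚ) := by
      apply sum_le_sum
      intro C hC'
      have := hC C hC'
      rw [inter_empty, card_empty, sdiff_empty]
      unfold wC
      push_cast
      refine le_trans (le_of_eq ?_) this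
      ring
    refine this.trans (le_of_eq ?_)
    rw [sum_const, nsmul_eq_mul, mul_one]
  have h3 := key.trans (add_le_add h2 h1)
  linarith

/-- two different blocks share at most two points -/
lemma inter_le_two {B B' : Finset α} (hB : B ∈ CC ∪ LL) (hB' : B' ∈ CC ∪ LL) (hne : B ≠ B') :
    (B ∩ B').card ≤ 2 := by
  by_contra hcon
  push Not at hcon
  obtain ⟨x, y, z, hx, hy, hz, hxy, hxz, hyz⟩ := Finset.two_lt_card_iff.1 hcon
  rw [mem_inter] at hx hy hz
  exact hne (h.bu B hB B' hB' x y z hxy hxz hyz hx.1 hy.1 hz.1 hx.2 hy.2 hz.2)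

lemma inter_le_one {B B' : Finset α} (hB : B ∈ LL) (hB' : B' ∈ LL) (hne : B ≠ B') :
    (B ∩ B').card ≤ 1 := by
  by_contra hcon
  push Not at hcon
  obtain ⟨x, hx, y, hy, hxy⟩ := Finset.one_lt_card.1 hcon
  rw [mem_inter] at hx hy
  exact hne (h.lu B hB B' hB' x y hxy hx.1 hy.1 hx.2 hy.2)

omit h in
/-- pairwise disjoint pairs in `M` -/
lemma disj_pairs {Y : Finset (Finset α)} {M : Finset α} (h2 : ∀ C ∈ Y, (C ∩ M).card = 2)
    (hd : ∀ C ∈ Y, ∀ C' ∈ Y, C ≠ C' → ∀ x ∈ M, x ∈ C → x ∈ C' → False) :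
    Y.card ≤ M.card / 2 := by
  have h1 : (Y.biUnion (fun C => C ∩ M)).card = ∑ C ∈ Y, (C ∩ M).card := by
    apply card_biUnion
    intro C hC C' hC' hne
    show Disjoint (C ∩ M) (C' ∩ M)
    rw [Finset.disjoint_left]
    intro x hx hx'
    rw [mem_inter] at hx hx'
    exact hd C hC C' hC' hne x hx.2 hx.1 hx'.1
  have h3 : (Y.biUnion (fun C => C ∩ M)).card ≤ M.card := by
    apply card_le_card
    intro x hx
    rw [mem_biUnion] at hx
    obtain ⟨C, _, hx⟩ := hx
    exact (mem_inter.1 hx).2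
  rw [h1, sum_congr rfl h2, sum_const, smul_eq_mul] at h3
  omega

/-- circles meeting `M` in exactly two points -/
def X2 (CC : Finset (Finset α)) (M : Finset α) : Finset (Finset α) :=
  CC.filter (fun C => (C ∩ M).card = 2)

/-- lower bound for circles through `q` meeting the circle `M` in two points -/
lemma through_circle {M : Finset α} (hM : M ∈ CC) {q : α} (hq : q ∈ P) (hqM : q ∉ M) :
    (M.card : ℚ) * (M.card - 1) ≤
      2 * ((X2 CC M).filter (fun C => q ∈ C)).card + 2 * ((M.card / 2 : ℕ) : ℚ) := by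
  rw [h.pt_offDiag hq (h.cP M hM) hqM, filter_union,
    sum_union (disjoint_filter_filter h.disj)]
  have hterm : ∀ B ∈ CC ∪ LL, q ∈ B → ((B ∩ M).card : ℚ) * ((B ∩ M).card - 1) =
      if (B ∩ M).card = 2 then 2 else 0 := by
    intro B hB hqB
    have hne : B ≠ M := fun hh => hqM (hh ▸ hqB)
    have := h.inter_le_two hB (mem_union_left _ hM) hne
    interval_cases hk : (B ∩ M).card <;> norm_num
  have e1 : ∑ B ∈ CC.filter (fun B => q ∈ B), ((B ∩ M).card : ℚ) * ((B ∩ M).card - 1) =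
      2 * ((X2 CC M).filter (fun C => q ∈ C)).card := by
    rw [sum_congr rfl (fun B hB => hterm B (mem_union_left _ (mem_filter.1 hB).1)
      (mem_filter.1 hB).2), ← sum_filter, sum_const, nsmul_eq_mul, mul_comm]
    congr 2
    unfold X2
    rw [filter_filter, filter_filter]
    congr 1
    ext B
    simp [and_comm]
  have e2 : ∑ B ∈ LL.filter (fun B => q ∈ B), ((B ∩ M).card : ℚ) * ((B ∩ M).card - 1) ≤
      2 * ((M.card / 2 : ℕ) : ℚ) := by
    rw [sum_congr rfl (fun B hB => hterm B (mem_union_right _ (mem_filter.1 hB).1)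
      (mem_filter.1 hB).2), ← sum_filter, sum_const, nsmul_eq_mul, mul_comm]
    have : ((LL.filter (fun B => q ∈ B)).filter (fun B => (B ∩ M).card = 2)).card ≤
        M.card / 2 := by
      apply disj_pairs
      · intro C hC
        exact (mem_filter.1 hC).2
      · intro C hC C' hC' hne x hxM hx hx'
        rw [mem_filter, mem_filter] at hC hC'
        have hxq : x ≠ q := fun hh => hqM (hh ▸ hxM)
        exact hne (h.lu C hC.1.1 C' hC'.1.1 x q hxq hx hC.1.2 hx' hC'.1.2)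
    have : (((LL.filter (fun B => q ∈ B)).filter (fun B => (B ∩ M).card = 2)).card : ℚ) ≤
        ((M.card / 2 : ℕ) : ℚ) := by exact_mod_cast this
    linarith
  rw [e1]
  linarith

/-- number of circles through `q` meeting the line `M` in two points -/
lemma through_line {M : Finset α} (hM : M ∈ LL) {q : α} (hq : q ∈ P) (hqM : q ∉ M) :
    (M.card : ℚ) * (M.card - 1) ≤
      2 * ((X2 CC M).filter (fun C => q ∈ C)).card + 2 * ((0 : ℕ) : ℚ) := by
  rw [h.pt_offDiag hq (h.lP M hM) hqM, filter_union,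
    sum_union (disjoint_filter_filter h.disj)]
  have hterm : ∀ B ∈ CC ∪ LL, q ∈ B → ((B ∩ M).card : ℚ) * ((B ∩ M).card - 1) =
      if (B ∩ M).card = 2 then 2 else 0 := by
    intro B hB hqB
    have hne : B ≠ M := fun hh => hqM (hh ▸ hqB)
    have := h.inter_le_two hB (mem_union_right _ hM) hne
    interval_cases hk : (B ∩ M).card <;> norm_num
  have e1 : ∑ B ∈ CC.filter (fun B => q ∈ B), ((B ∩ M).card : ℚ) * ((B ∩ M).card - 1) =
      2 * ((X2 CC M).filter (fun C => q ∈ C)).card := by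
    rw [sum_congr rfl (fun B hB => hterm B (mem_union_left _ (mem_filter.1 hB).1)
      (mem_filter.1 hB).2), ← sum_filter, sum_const, nsmul_eq_mul, mul_comm]
    congr 2
    unfold X2
    rw [filter_filter, filter_filter]
    congr 1
    ext B
    simp [and_comm]
  have e2 : ∑ B ∈ LL.filter (fun B => q ∈ B), ((B ∩ M).card : ℚ) * ((B ∩ M).card - 1) = 0 := by
    apply sum_eq_zero
    intro B hB
    rw [mem_filter] at hB
    have hne : B ≠ M := fun hh => hqM (hh ▸ hB.2)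
    have := h.inter_le_one hB.1 hM hne
    interval_cases hk : (B ∩ M).card <;> norm_num
  rw [e1, e2]
  push_cast
  linarith

/-- the Bonferroni bound -/
lemma bonf {M : Finset α} {J : Finset α} (hJ : J ⊆ P \ M) {e : ℕ}
    (hq : ∀ q ∈ J, (M.card : ℚ) * (M.card - 1) ≤
      2 * ((X2 CC M).filter (fun C => q ∈ C)).card + 2 * (e : ℚ)) :
    (J.card : ℚ) * (M.card * (M.card - 1) - 2 * e) - J.card * (J.card - 1) * ((M.card / 2 : ℕ) : ℚ)
      ≤ 2 * (X2 CC M).card := by
  set X := X2 CC M with hX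
  have h1 : ∑ C ∈ X, ((C ∩ J).card : ℚ) * 1 = ∑ q ∈ J, ((X.filter (fun C => q ∈ C)).card : ℚ) := by
    rw [← dbl]
    apply sum_congr rfl
    intro q _
    rw [sum_const, nsmul_eq_mul, mul_one]
  have h2 : ∑ C ∈ X, ((C ∩ J).card : ℚ) * ((C ∩ J).card - 1) ≤
      (J.card : ℚ) * (J.card - 1) * ((M.card / 2 : ℕ) : ℚ) := by
    have e1 : ∀ C : Finset α, ((C ∩ J).card : ℚ) * ((C ∩ J).card - 1) =
        ∑ e ∈ J.offDiag, if e.1 ∈ C ∧ e.2 ∈ C then (1 : ℚ) else 0 := by
      intro C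
      rw [← card_offDiag_q, ← filter_offDiag, card_filter]
      push_cast
      rfl
    simp_rw [e1]
    rw [sum_comm, ← card_offDiag_q, ← nsmul_eq_mul]
    apply sum_le_card_nsmul
    intro ⟨q, q'⟩ he
    rw [mem_offDiag] at he
    simp only at he ⊢
    rw [← sum_filter, sum_const, nsmul_eq_mul, mul_one]
    have : (X.filter (fun C => q ∈ C ∧ q' ∈ C)).card ≤ M.card / 2 := by
      apply disj_pairs
      · intro C hC
        rw [mem_filter, hX, X2, mem_filter] at hC
        exact hC.1.2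
      · intro C hC C' hC' hne x hxM hx hx'
        rw [mem_filter, hX, X2, mem_filter] at hC hC'
        have hq1 := mem_sdiff.1 (hJ he.1)
        have hq2 := mem_sdiff.1 (hJ he.2.1)
        have hxq : x ≠ q := fun hh => hq1.2 (hh ▸ hxM)
        have hxq' : x ≠ q' := fun hh => hq2.2 (hh ▸ hxM)
        exact hne (h.bu C (mem_union_left _ hC.1.1) C' (mem_union_left _ hC'.1.1) x q q'
          hxq hxq' he.2.2 hx hC.2.1 hC.2.2 hx' hC'.2.1 hC'.2.2)
    exact_mod_cast this
  have h3 : ∑ C ∈ X, (((C ∩ J).card : ℚ) * 2 - ((C ∩ J).card : ℚ) * ((C ∩ J).card - 1)) ≤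
      2 * X.card := by
    rw [mul_comm, ← nsmul_eq_mul]
    apply sum_le_card_nsmul
    intro C _
    have : ∀ k : ℕ, (k : ℚ) * 2 - k * (k - 1) ≤ 2 := by
      intro k
      have : (0 : ℤ) ≤ ((k : ℤ) - 1) * (k - 2) := by
        rcases Nat.lt_or_ge k 2 with hk | hk
        · interval_cases k <;> norm_num
        · have : (2 : ℤ) ≤ k := by exact_mod_cast hk
          nlinarith
      have : (0 : ℚ) ≤ ((k : ℚ) - 1) * (k - 2) := by exact_mod_cast this
      nlinarith
    exact this _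
  rw [sum_sub_distrib, ← sum_mul] at h3
  have h4 : ∑ C ∈ X, ((C ∩ J).card : ℚ) = ∑ q ∈ J, ((X.filter (fun C => q ∈ C)).card : ℚ) := by
    rw [← h1]; simp
  rw [h4] at h3
  have h5 : (J.card : ℚ) * (M.card * (M.card - 1) - 2 * e) ≤
      ∑ q ∈ J, 2 * ((X.filter (fun C => q ∈ C)).card : ℚ) := by
    rw [← nsmul_eq_mul]
    apply card_nsmul_le_sum
    intro q hqJ
    have := hq q hqJ
    linarith
  rw [← mul_sum] at h5
  linarith

/-- direct bound from a circle with many points -/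
theorem direct_circle {M : Finset α} (hM : M ∈ CC) {j : ℕ} (hj : j ≤ (P \ M).card) :
    (j : ℚ) * (M.card * (M.card - 1) - 2 * ((M.card / 2 : ℕ) : ℚ))
      - j * (j - 1) * ((M.card / 2 : ℕ) : ℚ) + 2 ≤ 2 * CC.card := by
  obtain ⟨J, hJ, hJc⟩ := exists_subset_card_eq hj
  have h1 := h.bonf hJ (e := M.card / 2)
    (fun q hq => h.through_circle hM (mem_sdiff.1 (hJ hq)).1 (mem_sdiff.1 (hJ hq)).2)
  rw [hJc] at h1
  have h2 : (X2 CC M).card + 1 ≤ CC.card := by
    have : X2 CC M ⊆ CC.erase M := by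
      intro C hC
      rw [X2, mem_filter] at hC
      rw [mem_erase]
      refine ⟨?_, hC.1⟩
      rintro rfl
      rw [inter_self] at hC
      have := h.c3 C hM
      omega
    have := card_le_card this
    rw [card_erase_of_mem hM] at this
    have := card_pos.2 ⟨M, hM⟩
    omega
  have h3 : ((X2 CC M).card : ℚ) + 1 ≤ CC.card := by exact_mod_cast h2
  linarith

/-- direct bound from a line with many points -/
theorem direct_line {M : Finset α} (hM : M ∈ LL) {j : ℕ} (hj : j ≤ (P \ M).card) :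
    (j : ℚ) * (M.card * (M.card - 1)) - j * (j - 1) * ((M.card / 2 : ℕ) : ℚ) ≤ 2 * CC.card := by
  obtain ⟨J, hJ, hJc⟩ := exists_subset_card_eq hj
  have h1 := h.bonf hJ (e := 0)
    (fun q hq => h.through_line hM (mem_sdiff.1 (hJ hq)).1 (mem_sdiff.1 (hJ hq)).2)
  rw [hJc] at h1
  have h2 : (X2 CC M).card ≤ CC.card := card_filter_le _ _
  have h3 : ((X2 CC M).card : ℚ) ≤ CC.card := by exact_mod_cast h2
  push_cast at h1
  linarith

end Sys

end

end Pool.Agent.U272.Circ
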