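import Mathlib
import Pool.Agent.U272.Circ.Abs2

/-! The lower bound for the number of circles, for systems on at least 15 points. -/

namespace Pool.Agent.U272.Circ

open Finset

noncomputable section

open scoped Classical

variable {α : Type*} [DecidableEq α]

namespace Sys

variable {P : Finset α} {CC LL : Finset (Finset α)} (h : Sys P CC LL)

include h

/-- bound when all circles have at most `K` points -/
theorem simple {K al n : ℚ} (hK : 3 ≤ K) (hal : al * (K * (K + 2)) = 2 * (K - 1))
    (hn : (P.card : ℚ) = n) (hC : ∀ C ∈ CC, (C.card : ℚ) ≤ K)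
    (hL : ∀ L ∈ LL, al * (L.card + 2) ≤ 8 / 3) :
    al / 6 * (n * ((n - 1) * (n - 2))) - al * n + n - n * (n - 1) / 9 ≤ CC.card := by
  have hKp : 0 < K * (K + 2) := by positivity
  have hal1 : 0 ≤ al := by
    by_contra hcon
    push Not at hcon
    nlinarith [mul_pos_of_neg_of_neg hcon (by linarith : -(K * (K + 2)) < 0)]
  have hal2 : al ≤ 2 / 3 := by
    by_contra hcon
    push Not at hcon
    nlinarith [mul_lt_mul_of_pos_right hcon hKp]
  have key := h.cert_plain (al / 6) ((2 / 3 - al) / 3) (1 / 9) (-1 / 9) (by linarith)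
    (by norm_num) hn ?_ ?_
  · refine le_trans (le_of_eq ?_) key
    ring
  · intro C hC'
    have h3 : (3 : ℚ) ≤ C.card := by exact_mod_cast h.c3 C hC'
    have hCK := hC C hC'
    generalize (C.card : ℚ) = k at *
    have h1 : al * (k * (k + 2)) ≤ 2 * (k - 1) := by
      have h2 : 0 ≤ (K - k) * ((k - 1) * (K - 1) - 3) := by
        apply mul_nonneg
        · linarith
        · nlinarith
      have h4 : (al * (k * (k + 2))) * (K * (K + 2)) ≤ (2 * (k - 1)) * (K * (K + 2)) := by
        have : (al * (k * (k + 2))) * (K * (K + 2)) = 2 * (K - 1) * (k * (k + 2)) := by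
          rw [← hal]; ring
        rw [this]
        nlinarith
      exact le_of_mul_le_mul_right h4 hKp
    have h5 : 0 ≤ (k - 3) * (2 * (k - 1) - al * (k * (k + 2))) :=
      mul_nonneg (by linarith) (by linarith)
    nlinarith
  · intro L hL'
    have h2 : 2 ≤ L.card := h.l2 L hL'
    have hLL := hL L hL'
    split_ifs with h3
    · have h3' : (3 : ℚ) ≤ L.card := by exact_mod_cast h3
      generalize (L.card : ℚ) = k at *
      have h5 : 0 ≤ (k * (k - 3)) * (8 / 3 - al * (k + 2)) :=
        mul_nonneg (mul_nonneg (by linarith) (by linarith)) (by linarith)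
      nlinarith
    · have : L.card = 2 := by omega
      rw [this]
      norm_num

/-- direct bound from a circle, in natural numbers -/
theorem dcN {M : Finset α} (hM : M ∈ CC) {j : ℕ} (hj : j ≤ P.card - M.card) :
    j * (M.card * (M.card - 1)) + 2 ≤
      2 * CC.card + j * (j - 1) * (M.card / 2) + 2 * j * (M.card / 2) := by
  have hj' : j ≤ (P \ M).card := by rw [card_sdiff_of_subset (h.cP M hM)]; exact hj
  have h1 := h.direct_circle hM hj'
  have h3 := h.c3 M hM
  have e1 : ((M.card - 1 : ℕ) : ℚ) = (M.card : ℚ) - 1 := by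
    rw [Nat.cast_sub (by omega)]; norm_num
  have e2 : ((j * (j - 1) : ℕ) : ℚ) = (j : ℚ) * (j - 1) := by
    cases j with
    | zero => simp
    | succ k => push_cast [Nat.succ_sub_one]; ring
  have h4 : ((j * (M.card * (M.card - 1)) + 2 : ℕ) : ℚ) ≤
      ((2 * CC.card + j * (j - 1) * (M.card / 2) + 2 * j * (M.card / 2) : ℕ) : ℚ) := by
    have e3 : ((2 * CC.card + j * (j - 1) * (M.card / 2) + 2 * j * (M.card / 2) : ℕ) : ℚ) =
        2 * CC.card + ((j * (j - 1) : ℕ) : ℚ) * ((M.card / 2 : ℕ) : ℚ)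
          + 2 * j * ((M.card / 2 : ℕ) : ℚ) := by
      push_cast; rfl
    rw [e3, e2]
    rw [Nat.cast_add, Nat.cast_mul, Nat.cast_mul, e1]
    push_cast at h1 ⊢
    linarith
  exact_mod_cast h4

/-- direct bound from a line, in natural numbers -/
theorem dlN {M : Finset α} (hM : M ∈ LL) {j : ℕ} (hj : j ≤ P.card - M.card) :
    j * (M.card * (M.card - 1)) ≤ 2 * CC.card + j * (j - 1) * (M.card / 2) := by
  have hj' : j ≤ (P \ M).card := by rw [card_sdiff_of_subset (h.lP M hM)]; exact hj
  have h1 := h.direct_line hM hj'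
  have h3 := h.l2 M hM
  have e1 : ((M.card - 1 : ℕ) : ℚ) = (M.card : ℚ) - 1 := by
    rw [Nat.cast_sub (by omega)]; norm_num
  have e2 : ((j * (j - 1) : ℕ) : ℚ) = (j : ℚ) * (j - 1) := by
    cases j with
    | zero => simp
    | succ k => push_cast [Nat.succ_sub_one]; ring
  have h4 : ((j * (M.card * (M.card - 1)) : ℕ) : ℚ) ≤
      ((2 * CC.card + j * (j - 1) * (M.card / 2) : ℕ) : ℚ) := by
    have e3 : ((2 * CC.card + j * (j - 1) * (M.card / 2) : ℕ) : ℚ) =
        2 * CC.card + ((j * (j - 1) : ℕ) : ℚ) * ((M.card / 2 : ℕ) : ℚ) := by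
      push_cast; rfl
    rw [e3, e2]
    rw [Nat.cast_mul, Nat.cast_mul, e1]
    push_cast at h1 ⊢
    linarith
  exact_mod_cast h4

end Sys

/-- twice the value of the conjectured minimum -/
def f2 (n : ℕ) : ℕ := (n - 1) * (n - 2) + 2 - 2 * ((n - 1) / 2)

def dcOK (n a : ℕ) : Prop :=
  ∃ j ∈ Finset.range (n - a + 1), f2 n + j * (j - 1) * (a / 2) + 2 * j * (a / 2) ≤
    j * (a * (a - 1)) + 2

def dlOK (n a : ℕ) : Prop :=
  ∃ j ∈ Finset.range (n - a + 1), f2 n + j * (j - 1) * (a / 2) ≤ j * (a * (a - 1))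

def sOK (n K : ℕ) : Prop :=
  9 * (K * (K + 2)) * (f2 n - 2) + 36 * (K - 1) * n + 2 * (K * (K + 2)) * (n * (n - 1)) <
    6 * (K - 1) * (n * ((n - 1) * (n - 2))) + 18 * (K * (K + 2)) * n

def lOK (K L : ℕ) : Prop := 3 * ((K - 1) * (L + 2)) ≤ 4 * (K * (K + 2))

instance (n a : ℕ) : Decidable (dcOK n a) := by unfold dcOK; infer_instance
instance (n a : ℕ) : Decidable (dlOK n a) := by unfold dlOK; infer_instance
instance (n a : ℕ) : Decidable (sOK n a) := by unfold sOK; infer_instance
instance (n a : ℕ) : Decidable (lOK n a) := by unfold lOK; infer_instance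

end

end Pool.Agent.U272.Circ
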