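import Mathlib
import Pool.Agent.U272.Circ.Abs3

/-! The lower bound for the number of circles, for systems on at least 15 points. -/

namespace Pool.Agent.U272.Circ

open Finset

/-- the value of the minimum -/
def gg (n : ℕ) : ℕ := (n - 1).choose 2 + 1 - (n - 1) / 2

lemma two_gg {n : ℕ} (hn : 3 ≤ n) : f2 n = 2 * gg n := by
  obtain ⟨m, rfl⟩ : ∃ m, n = m + 3 := ⟨n - 3, by omega⟩
  unfold f2 gg
  have h1 : (m + 3 - 1) = m + 2 := rfl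
  have h2 : (m + 3 - 2) = m + 1 := rfl
  rw [h1, h2, Nat.choose_two_right]
  have h3 : m + 2 - 1 = m + 1 := rfl
  rw [h3]
  have h4 : 2 * ((m + 2) * (m + 1) / 2) = (m + 2) * (m + 1) := by
    have : 2 ∣ (m + 2) * (m + 1) := by
      have := Nat.even_mul_succ_self (m + 1)
      rw [mul_comm] at this
      exact this.two_dvd
    omega
  have h5 : (m + 2) / 2 ≤ (m + 2) * (m + 1) / 2 := by
    apply Nat.div_le_div_right
    nlinarith
  omega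

/-- table check for the numbers where the plain bound suffices -/
lemma tab : ∀ n ∈ Finset.Icc 19 47, n ≠ 20 → n ≠ 22 → ∃ K ∈ Finset.Icc 3 18, ∃ L ∈ Finset.range 18,
    (∀ a ∈ Finset.Icc (K + 1) (n - 1), dcOK n a) ∧ (∀ a ∈ Finset.Icc (L + 1) (n - 1), dlOK n a) ∧
    sOK n K ∧ lOK K L := by
  decide +kernel

lemma tab15 : (∀ a ∈ Finset.Icc 8 14, dcOK 15 a) ∧ (∀ a ∈ Finset.Icc 8 14, dlOK 15 a) ∧
    sOK 15 5 ∧ lOK 5 7 := by
  decide +kernel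

lemma tab16 : (∀ a ∈ Finset.Icc 9 15, dcOK 16 a) ∧ (∀ a ∈ Finset.Icc 8 15, dlOK 16 a) ∧
    sOK 16 6 ∧ lOK 6 7 := by
  decide +kernel

lemma tab17 : (∀ a ∈ Finset.Icc 9 16, dcOK 17 a) ∧ (∀ a ∈ Finset.Icc 9 16, dlOK 17 a) ∧
    sOK 17 7 ∧ lOK 7 8 := by
  decide +kernel

lemma tab18 : (∀ a ∈ Finset.Icc 9 17, dcOK 18 a) ∧ (∀ a ∈ Finset.Icc 9 17, dlOK 18 a) ∧
    sOK 18 7 ∧ lOK 7 8 := by
  decide +kernel

lemma tab20 : (∀ a ∈ Finset.Icc 10 19, dcOK 20 a) ∧ (∀ a ∈ Finset.Icc 9 19, dlOK 20 a) ∧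
    sOK 20 8 ∧ lOK 8 8 := by
  decide +kernel

lemma tab22 : (∀ a ∈ Finset.Icc 11 21, dcOK 22 a) ∧ (∀ a ∈ Finset.Icc 10 21, dlOK 22 a) ∧
    sOK 22 9 ∧ lOK 9 9 := by
  decide +kernel

/-- the check of all weights for one pair `n`, `a` -/
def famOK (n a L : ℕ) : Prop :=
  (∀ i ∈ Finset.range 3, ∀ j ∈ Finset.range (a + 1), 3 ≤ i + j → i + j ≤ a →
    6 * (a + 1) * (i * (i - 1) * j : ℤ) + 3 * (a + 4) * (i * (j * (j - 1)))
      + 6 * (j * ((j - 1) * (j - 2))) + (6 * (a + 4) * i + 12 * (a + 1) * j) * (4 - (i + j))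
      ≤ 36 * (a + 2)) ∧
  (∀ i ∈ Finset.range 3, ∀ j ∈ Finset.range (L + 1), 2 ≤ i + j → i + j ≤ L →
    6 * (a + 1) * (i * (i - 1) * j : ℤ) + 3 * (a + 4) * (i * (j * (j - 1)))
      + 6 * (j * ((j - 1) * (j - 2)))
      + (if 3 ≤ i + j then ((2 * a + 16) * i + (8 * a + 4) * j) * (4 - ((i : ℤ) + j)) else 0)
      + (4 * (a + 2) * i + 4 * (a + 2) * j) * (3 - (i + j))
      - 4 * (a + 2) * (i * (i - 1)) - 8 * (a + 2) * (i * j) - 4 * (a + 2) * (j * (j - 1))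
      ≤ 0) ∧
  36 * (a + 2) * (((n - 1 : ℤ)) * (n - 2) / 2 - (n - 1) / 2 - 1) <
    6 * (a + 1) * (a * (a - 1) * (n - a)) + 3 * (a + 4) * (a * ((n - a) * (n - a - 1)))
      + 6 * ((n - a) * ((n - a - 1) * (n - a - 2)))
      + 3 * (6 * (a + 4) * a + 12 * (a + 1) * (n - a))
      - 4 * (a + 2) * (a * (a - 1)) - 8 * (a + 2) * (a * (n - a))
      - 4 * (a + 2) * ((n - a) * (n - a - 1)) - 6 * (a + 4) * (a * (4 - a))

instance (n a L : ℕ) : Decidable (famOK n a L) := by unfold famOK; infer_instance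

lemma fam_all : famOK 15 6 7 ∧ famOK 15 7 7 ∧ famOK 16 7 7 ∧ famOK 16 8 7 ∧ famOK 17 8 8 ∧
    famOK 18 8 8 ∧ famOK 20 9 8 ∧ famOK 22 10 9 := by
  decide +kernel

end Pool.Agent.U272.Circ
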