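import Mathlib
import Pool.Agent.U272.Circ.Abs4

/-! The lower bound for the number of circles, for systems on at least 15 points. -/

namespace Pool.Agent.U272.Circ

open Finset

noncomputable section

open scoped Classical

variable {α : Type*} [DecidableEq α]

lemma gg_cast {n : ℕ} (hn : 3 ≤ n) :
    2 * (gg n : ℚ) = ((n : ℚ) - 1) * (n - 2) + 2 - 2 * (((n - 1) / 2 : ℕ) : ℚ) := by
  have h := two_gg hn
  obtain ⟨m, rfl⟩ : ∃ m, n = m + 3 := ⟨n - 3, by omega⟩
  unfold f2 at h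
  have h1 : (m + 3 - 1) = m + 2 := rfl
  have h2 : (m + 3 - 2) = m + 1 := rfl
  rw [h1, h2] at h
  rw [h1]
  have h5 : 2 * ((m + 2) / 2) ≤ (m + 2) * (m + 1) + 2 := by
    have : 2 * ((m + 2) / 2) ≤ m + 2 := Nat.mul_div_le _ _
    nlinarith
  have h6 : (((m + 2) * (m + 1) + 2 - 2 * ((m + 2) / 2) : ℕ) : ℚ) = ((2 * gg (m + 3) : ℕ) : ℚ) := by
    rw [h]
  rw [Nat.cast_sub h5] at h6
  push_cast at h6 ⊢
  linarith

namespace Sys

variable {P : Finset α} {CC LL : Finset (Finset α)} (h : Sys P CC LL)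

include h

theorem circ_le (hn : 3 ≤ P.card) (hlt : ∀ C ∈ CC, C.card < P.card) {K : ℕ}
    (hK : ∀ a ∈ Finset.Icc (K + 1) (P.card - 1), dcOK P.card a) (hc : CC.card < gg P.card) :
    ∀ C ∈ CC, C.card ≤ K := by
  intro C hC
  by_contra hcon
  push Not at hcon
  have hlt' := hlt C hC
  obtain ⟨j, hj, hj'⟩ := hK C.card (mem_Icc.2 ⟨hcon, by omega⟩)
  rw [mem_range] at hj
  have h1 := h.dcN hC (j := j) (by omega)
  have h2 := two_gg hn
  omega

theorem line_le (hn : 3 ≤ P.card) (hlt : ∀ C ∈ LL, C.card < P.card) {K : ℕ}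
    (hK : ∀ a ∈ Finset.Icc (K + 1) (P.card - 1), dlOK P.card a) (hc : CC.card < gg P.card) :
    ∀ C ∈ LL, C.card ≤ K := by
  intro C hC
  by_contra hcon
  push Not at hcon
  have hlt' := hlt C hC
  obtain ⟨j, hj, hj'⟩ := hK C.card (mem_Icc.2 ⟨hcon, by omega⟩)
  rw [mem_range] at hj
  have h1 := h.dlN hC (j := j) (by omega)
  have h2 := two_gg hn
  omega

theorem simpleN {K L : ℕ} (hn : 3 ≤ P.card) (hK : 3 ≤ K) (hC : ∀ C ∈ CC, C.card ≤ K)
    (hL : ∀ C ∈ LL, C.card ≤ L) (hs : sOK P.card K) (hl : lOK K L) : gg P.card ≤ CC.card := by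
  by_contra hcon
  push Not at hcon
  set n := P.card with hnn
  have hKq : (3 : ℚ) ≤ K := by exact_mod_cast hK
  have hD : (0 : ℚ) < (K : ℚ) * (K + 2) := by positivity
  set al : ℚ := 2 * ((K : ℚ) - 1) / ((K : ℚ) * (K + 2)) with hal
  have hal' : al * ((K : ℚ) * (K + 2)) = 2 * (K - 1) := by
    rw [hal, div_mul_cancel₀ _ hD.ne']
  have hal0 : 0 ≤ al := by
    rw [hal]; apply div_nonneg _ hD.le; linarith
  have hlq : 3 * (((K : ℚ) - 1) * (L + 2)) ≤ 4 * (K * (K + 2)) := by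
    unfold lOK at hl
    have : ((3 * ((K - 1) * (L + 2)) : ℕ) : ℚ) ≤ ((4 * (K * (K + 2)) : ℕ) : ℚ) := by
      exact_mod_cast hl
    push_cast [Nat.cast_sub (by omega : 1 ≤ K)] at this
    exact this
  have key := h.simple hKq hal' (n := n) (by rw [hnn])
    (fun C hC' => by exact_mod_cast hC C hC')
    (fun L' hL' => by
      have h1 : (L'.card : ℚ) ≤ L := by exact_mod_cast hL L' hL'
      have h2 : al * ((L : ℚ) + 2) ≤ 8 / 3 := by
        have : (al * ((L : ℚ) + 2)) * ((K : ℚ) * (K + 2)) ≤ (8 / 3) * ((K : ℚ) * (K + 2)) := by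
          have e : (al * ((L : ℚ) + 2)) * ((K : ℚ) * (K + 2)) = 2 * (K - 1) * (L + 2) := by
            rw [← hal']; ring
          rw [e]; linarith
        exact le_of_mul_le_mul_right this hD
      have h3 : al * ((L'.card : ℚ) + 2) ≤ al * ((L : ℚ) + 2) :=
        mul_le_mul_of_nonneg_left (by linarith) hal0
      linarith)
  have hsq : 9 * ((K : ℚ) * (K + 2)) * (2 * (CC.card : ℚ)) + 36 * (K - 1) * n
      + 2 * ((K : ℚ) * (K + 2)) * (n * (n - 1)) <
      6 * (K - 1) * (n * ((n - 1) * (n - 2))) + 18 * ((K : ℚ) * (K + 2)) * n := by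
    unfold sOK at hs
    have h1 : 2 * CC.card ≤ f2 n - 2 := by
      have := two_gg hn
      omega
    have h2 : 9 * (K * (K + 2)) * (2 * CC.card) + 36 * (K - 1) * n
      + 2 * (K * (K + 2)) * (n * (n - 1)) <
      6 * (K - 1) * (n * ((n - 1) * (n - 2))) + 18 * (K * (K + 2)) * n := by
      refine lt_of_le_of_lt ?_ hs
      gcongr
    have h3 : ((9 * (K * (K + 2)) * (2 * CC.card) + 36 * (K - 1) * n
      + 2 * (K * (K + 2)) * (n * (n - 1)) : ℕ) : ℚ) <
      ((6 * (K - 1) * (n * ((n - 1) * (n - 2))) + 18 * (K * (K + 2)) * n : ℕ) : ℚ) := by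
      exact_mod_cast h2
    push_cast [Nat.cast_sub (by omega : 1 ≤ K), Nat.cast_sub (by omega : 1 ≤ n),
      Nat.cast_sub (by omega : 2 ≤ n)] at h3
    exact h3
  have h5 : (al / 6 * (n * (((n : ℚ) - 1) * (n - 2))) - al * n + n - n * (n - 1) / 9)
      * ((K : ℚ) * (K + 2)) ≤ (CC.card : ℚ) * ((K : ℚ) * (K + 2)) :=
    mul_le_mul_of_nonneg_right key hD.le
  have h6 : (al / 6 * (n * (((n : ℚ) - 1) * (n - 2))) - al * n + n - n * (n - 1) / 9)
      * ((K : ℚ) * (K + 2)) = 2 * (K - 1) / 6 * (n * (((n : ℚ) - 1) * (n - 2)))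
        - 2 * (K - 1) * n + n * ((K : ℚ) * (K + 2)) - n * (n - 1) / 9 * ((K : ℚ) * (K + 2)) := by
    rw [← hal']; ring
  rw [h6] at h5
  linarith

theorem famN {a L : ℕ} (hn : 3 ≤ P.card) {M : Finset α} (hM : M ∈ CC) (hMa : M.card = a)
    (hC : ∀ C ∈ CC, C.card ≤ a)
    (hL : ∀ C ∈ LL, C.card ≤ L) (hfam : famOK P.card a L) : gg P.card ≤ CC.card := by
  obtain ⟨f1, f2, f3⟩ := hfam
  set n := P.card with hnn
  have hD : (0 : ℚ) < 36 * ((a : ℚ) + 2) := by positivity
  have hMP := h.cP M hM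
  have hb : ((P \ M).card : ℚ) = (n : ℚ) - a := by
    rw [card_sdiff_of_subset hMP, Nat.cast_sub (card_le_card hMP), hMa]
  have key := h.cert_circle hM (6 * (a + 1) / (36 * (a + 2))) (3 * (a + 4) / (36 * (a + 2)))
    (6 / (36 * (a + 2))) ((2 * a + 16) / (36 * (a + 2))) ((8 * a + 4) / (36 * (a + 2)))
    (4 * (a + 2) / (36 * (a + 2))) (4 * (a + 2) / (36 * (a + 2)))
    (-(4 * (a + 2)) / (36 * (a + 2))) (-(8 * (a + 2)) / (36 * (a + 2)))
    (-(4 * (a + 2)) / (36 * (a + 2)))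
    (by positivity) (by positivity) (by positivity) (by positivity) (a := a) (b := (n : ℚ) - a)
    (by rw [hMa]) hb ?_ ?_
  · have e : (6 * ((a : ℚ) + 1) / (36 * (a + 2))) * (a * (a - 1) * ((n : ℚ) - a))
        + (3 * ((a : ℚ) + 4) / (36 * (a + 2))) * (a * (((n : ℚ) - a) * ((n : ℚ) - a - 1)))
        + (6 / (36 * ((a : ℚ) + 2))) * (((n : ℚ) - a) * (((n : ℚ) - a - 1) * ((n : ℚ) - a - 2)))
        + 3 * (((2 * (a : ℚ) + 16) / (36 * (a + 2)) + 4 * ((a : ℚ) + 2) / (36 * (a + 2))) * a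
          + ((8 * (a : ℚ) + 4) / (36 * (a + 2)) + 4 * ((a : ℚ) + 2) / (36 * (a + 2)))
            * ((n : ℚ) - a))
        + (-(4 * ((a : ℚ) + 2)) / (36 * (a + 2))) * (a * (a - 1))
        + (-(8 * ((a : ℚ) + 2)) / (36 * (a + 2))) * (a * ((n : ℚ) - a))
        + (-(4 * ((a : ℚ) + 2)) / (36 * (a + 2))) * (((n : ℚ) - a) * ((n : ℚ) - a - 1))
        - ((2 * (a : ℚ) + 16) / (36 * (a + 2)) + 4 * ((a : ℚ) + 2) / (36 * (a + 2)))
          * (a * (4 - a)) =
        (6 * (a + 1) * (a * (a - 1) * (n - a)) + 3 * (a + 4) * (a * ((n - a) * (n - a - 1)))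
      + 6 * ((n - a) * ((n - a - 1) * (n - a - 2)))
      + 3 * (6 * (a + 4) * a + 12 * (a + 1) * (n - a))
      - 4 * (a + 2) * (a * (a - 1)) - 8 * (a + 2) * (a * (n - a))
      - 4 * (a + 2) * ((n - a) * (n - a - 1)) - 6 * (a + 4) * (a * (4 - a)))
        / (36 * ((a : ℚ) + 2)) := by
      field_simp
      ring
    have k1 : (6 * (a + 1) * (a * (a - 1) * (n - a)) + 3 * (a + 4) * (a * ((n - a) * (n - a - 1)))
      + 6 * ((n - a) * ((n - a - 1) * (n - a - 2)))
      + 3 * (6 * (a + 4) * a + 12 * (a + 1) * (n - a))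
      - 4 * (a + 2) * (a * (a - 1)) - 8 * (a + 2) * (a * (n - a))
      - 4 * (a + 2) * ((n - a) * (n - a - 1)) - 6 * (a + 4) * (a * (4 - a)))
        / (36 * ((a : ℚ) + 2)) ≤ (CC.card : ℚ) - 1 := by
      rw [← e]; linarith
    rw [div_le_iff₀ hD] at k1
    have k2 : (6 * (a + 1) * (a * (a - 1) * (n - a)) + 3 * (a + 4) * (a * ((n - a) * (n - a - 1)))
      + 6 * ((n - a) * ((n - a - 1) * (n - a - 2)))
      + 3 * (6 * (a + 4) * a + 12 * (a + 1) * (n - a))
      - 4 * (a + 2) * (a * (a - 1)) - 8 * (a + 2) * (a * (n - a))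
      - 4 * (a + 2) * ((n - a) * (n - a - 1)) - 6 * (a + 4) * (a * (4 - a)) : ℤ)
        ≤ ((CC.card : ℤ) - 1) * (36 * ((a : ℤ) + 2)) := by
      exact_mod_cast k1
    have k3 := lt_of_lt_of_le f3 k2
    have hDz : (0 : ℤ) < 36 * ((a : ℤ) + 2) := by positivity
    rw [mul_comm] at k3
    have k4 := lt_of_mul_lt_mul_right k3 hDz.le
    have h2 := two_gg hn
    unfold Circ.f2 at h2
    have h3 : ((n - 1 : ℤ)) * (n - 2) = (((n - 1) * (n - 2) : ℕ) : ℤ) := by
      push_cast [Nat.cast_sub (by omega : 1 ≤ n), Nat.cast_sub (by omega : 2 ≤ n)]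
      rfl
    rw [h3] at k4
    generalize (n - 1) * (n - 2) = X at *
    omega
  · intro C hC' hne
    have h2 := h.inter_le_two (mem_union_left _ hC') (mem_union_left _ hM) hne
    have hsum : (C ∩ M).card + (C \ M).card = C.card := card_inter_add_card_sdiff C M
    have h3 := h.c3 C hC'
    have h4 := hC C hC'
    have key := f1 (C ∩ M).card (mem_range.2 (by omega)) (C \ M).card
      (mem_range.2 (by omega)) (by omega) (by omega)
    have key' : 6 * ((a : ℚ) + 1) * ((C ∩ M).card * ((C ∩ M).card - 1) * (C \ M).card)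
      + 3 * (a + 4) * ((C ∩ M).card * ((C \ M).card * ((C \ M).card - 1)))
      + 6 * ((C \ M).card * (((C \ M).card - 1) * ((C \ M).card - 2)))
      + (6 * (a + 4) * (C ∩ M).card + 12 * (a + 1) * (C \ M).card) *
        (4 - ((C ∩ M).card + (C \ M).card)) ≤ 36 * (a + 2) := by
      exact_mod_cast key
    have e : wC (6 * (a + 1) / (36 * (a + 2))) (3 * (a + 4) / (36 * (a + 2)))
        (6 / (36 * (a + 2))) ((2 * a + 16) / (36 * (a + 2)) + 4 * (a + 2) / (36 * (a + 2)))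
        ((8 * a + 4) / (36 * (a + 2)) + 4 * (a + 2) / (36 * (a + 2))) (C ∩ M).card (C \ M).card =
        (6 * ((a : ℚ) + 1) * ((C ∩ M).card * ((C ∩ M).card - 1) * (C \ M).card)
      + 3 * (a + 4) * ((C ∩ M).card * ((C \ M).card * ((C \ M).card - 1)))
      + 6 * ((C \ M).card * (((C \ M).card - 1) * ((C \ M).card - 2)))
      + (6 * (a + 4) * (C ∩ M).card + 12 * (a + 1) * (C \ M).card) *
        (4 - ((C ∩ M).card + (C \ M).card))) / (36 * (a + 2)) := by
      unfold wC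
      field_simp
      ring
    rw [e, div_le_one hD]
    exact key'
  · intro C hC'
    have hsum : (C ∩ M).card + (C \ M).card = C.card := card_inter_add_card_sdiff C M
    have hne : C ≠ M := by
      rintro rfl
      exact Finset.disjoint_left.1 h.disj hM hC'
    have h2 := h.inter_le_two (mem_union_right _ hC') (mem_union_left _ hM) hne
    have h3 := h.l2 C hC'
    have h4 := hL C hC'
    have key := f2 (C ∩ M).card (mem_range.2 (by omega)) (C \ M).card
      (mem_range.2 (by omega)) (by omega) (by omega)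
    have key' : 6 * ((a : ℚ) + 1) * ((C ∩ M).card * ((C ∩ M).card - 1) * (C \ M).card)
      + 3 * (a + 4) * ((C ∩ M).card * ((C \ M).card * ((C \ M).card - 1)))
      + 6 * ((C \ M).card * (((C \ M).card - 1) * ((C \ M).card - 2)))
      + (if 3 ≤ (C ∩ M).card + (C \ M).card then
          ((2 * a + 16) * (C ∩ M).card + (8 * a + 4) * (C \ M).card) *
            (4 - (((C ∩ M).card : ℚ) + (C \ M).card)) else 0)
      + (4 * (a + 2) * (C ∩ M).card + 4 * (a + 2) * (C \ M).card)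
        * (3 - ((C ∩ M).card + (C \ M).card))
      - 4 * (a + 2) * ((C ∩ M).card * ((C ∩ M).card - 1))
      - 8 * (a + 2) * ((C ∩ M).card * (C \ M).card)
      - 4 * (a + 2) * ((C \ M).card * ((C \ M).card - 1))
      ≤ 0 := by
      exact_mod_cast key
    have e : wL (6 * (a + 1) / (36 * (a + 2))) (3 * (a + 4) / (36 * (a + 2)))
        (6 / (36 * (a + 2))) ((2 * a + 16) / (36 * (a + 2))) ((8 * a + 4) / (36 * (a + 2)))
        (4 * (a + 2) / (36 * (a + 2))) (4 * (a + 2) / (36 * (a + 2)))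
        (-(4 * (a + 2)) / (36 * (a + 2))) (-(8 * (a + 2)) / (36 * (a + 2)))
        (-(4 * (a + 2)) / (36 * (a + 2))) (C ∩ M).card (C \ M).card =
        (6 * ((a : ℚ) + 1) * ((C ∩ M).card * ((C ∩ M).card - 1) * (C \ M).card)
      + 3 * (a + 4) * ((C ∩ M).card * ((C \ M).card * ((C \ M).card - 1)))
      + 6 * ((C \ M).card * (((C \ M).card - 1) * ((C \ M).card - 2)))
      + (if 3 ≤ (C ∩ M).card + (C \ M).card then
          ((2 * a + 16) * (C ∩ M).card + (8 * a + 4) * (C \ M).card) *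
            (4 - (((C ∩ M).card : ℚ) + (C \ M).card)) else 0)
      + (4 * (a + 2) * (C ∩ M).card + 4 * (a + 2) * (C \ M).card)
        * (3 - ((C ∩ M).card + (C \ M).card))
      - 4 * (a + 2) * ((C ∩ M).card * ((C ∩ M).card - 1))
      - 8 * (a + 2) * ((C ∩ M).card * (C \ M).card)
      - 4 * (a + 2) * ((C \ M).card * ((C \ M).card - 1))) / (36 * (a + 2)) := by
      unfold wL
      split_ifs
      · field_simp
        ring
      · field_simp
        ring
    rw [e]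
    exact div_nonpos_of_nonpos_of_nonneg key' hD.le

end Sys

end

end Pool.Agent.U272.Circ
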