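import Mathlib
import Pool.Agent.U272.Circ.Abs5

/-! The lower bound for the number of circles, for systems on at least 15 points. -/

namespace Pool.Agent.U272.Circ

open Finset

noncomputable section

open scoped Classical

variable {α : Type*} [DecidableEq α]

lemma two_gg_le {n : ℕ} (hn : 3 ≤ n) : 2 * (gg n : ℚ) ≤ ((n : ℚ) - 2) ^ 2 + 2 := by
  rw [gg_cast hn]
  have h1 : n - 2 ≤ 2 * ((n - 1) / 2) := by omega
  have h2 : ((n - 2 : ℕ) : ℚ) ≤ ((2 * ((n - 1) / 2) : ℕ) : ℚ) := by exact_mod_cast h1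
  rw [Nat.cast_sub (by omega : 2 ≤ n)] at h2
  push_cast at h2
  nlinarith

lemma poly_circ {n j : ℚ} (hn : 48 ≤ n) (hj : 2 ≤ j) (hj2 : 2 * j ≤ n - 1) :
    (n - 2) ^ 2 < j * (n - j) * (2 * n - 3 * j - 3) / 2 + 2 := by
  have h1 : 0 ≤ (j - 2) * (n - 1 - 2 * j) * (7 * n - 15 - 6 * j) := by
    apply mul_nonneg (mul_nonneg (by linarith) (by linarith)) (by linarith)
  have h2 : 0 ≤ (n - 1 - 2 * j) * ((n - 2) * (n - 7)) :=
    mul_nonneg (by linarith) (mul_nonneg (by linarith) (by linarith))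
  have h3 : 0 ≤ (j - 2) * ((n - 1) * (n + 1) * (n - 3) - 16 * (n - 2) ^ 2) := by
    apply mul_nonneg (by linarith)
    nlinarith [mul_nonneg (by linarith : (0:ℚ) ≤ n - 48) (by linarith : (0:ℚ) ≤ n - 48),
      mul_nonneg (mul_nonneg (by linarith : (0:ℚ) ≤ n - 48) (by linarith : (0:ℚ) ≤ n - 48))
        (by linarith : (0:ℚ) ≤ n - 48)]
  nlinarith

lemma poly_line {n j : ℚ} (hn : 48 ≤ n) (hj : 1 ≤ j) (hj2 : 2 * j ≤ n - 1) :
    (n - 2) ^ 2 < j * (n - j) * (2 * n - 3 * j - 1) / 2 := by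
  have h1 : 0 ≤ (j - 1) * (n - 1 - 2 * j) * (7 * n - 1 - 6 * j) := by
    apply mul_nonneg (mul_nonneg (by linarith) (by linarith)) (by linarith)
  have h2 : 0 ≤ (n - 1 - 2 * j) * ((n - 1) * (n - 2) - (n - 2) ^ 2 - 1) := by
    apply mul_nonneg (by linarith)
    nlinarith
  have h3 : 0 ≤ (j - 1) * ((n - 1) * (n + 1) ^ 2 - 16 * (n - 2) ^ 2 - 1) := by
    apply mul_nonneg (by linarith)
    nlinarith [mul_nonneg (by linarith : (0:ℚ) ≤ n - 48) (by linarith : (0:ℚ) ≤ n - 48),
      mul_nonneg (mul_nonneg (by linarith : (0:ℚ) ≤ n - 48) (by linarith : (0:ℚ) ≤ n - 48))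
        (by linarith : (0:ℚ) ≤ n - 48)]
  nlinarith

lemma poly_fin {n : ℚ} (hn : 48 ≤ n) : 0 < n ^ 3 - 48 * n ^ 2 + 212 * n - 48 := by
  nlinarith [mul_nonneg (by linarith : (0:ℚ) ≤ n - 48) (sq_nonneg n)]

namespace Sys

variable {P : Finset α} {CC LL : Finset (Finset α)} (h : Sys P CC LL)

include h

theorem big (hn : 48 ≤ P.card) (hC : ∀ C ∈ CC, C.card < P.card)
    (hL : ∀ C ∈ LL, C.card < P.card) : gg P.card ≤ CC.card := by
  by_contra hcon
  push Not at hcon
  set n := P.card with hnn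
  have hnq : (48 : ℚ) ≤ n := by exact_mod_cast hn
  have hup : 2 * (CC.card : ℚ) ≤ ((n : ℚ) - 2) ^ 2 := by
    have h1 : (CC.card : ℚ) + 1 ≤ gg n := by exact_mod_cast hcon
    have h2 := two_gg_le (n := n) (by omega)
    linarith
  -- circles
  have hC2 : ∀ C ∈ CC, 2 * C.card ≤ n := by
    intro C hC'
    by_contra hc
    push Not at hc
    have hlt := hC C hC'
    rcases Nat.lt_or_ge (C.card + 1) n with h2 | h2
    · have h1 := h.direct_circle hC' (j := n - C.card)
        (by rw [card_sdiff_of_subset (h.cP C hC')])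
      have hf : ((C.card / 2 : ℕ) : ℚ) ≤ (C.card : ℚ) / 2 := Nat.cast_div_le
      have hj : ((n - C.card : ℕ) : ℚ) = (n : ℚ) - C.card := by
        rw [Nat.cast_sub hlt.le]
      rw [hj] at h1
      have hj2 : (2 : ℚ) ≤ (n : ℚ) - C.card := by
        rw [← hj]
        have : 2 ≤ n - C.card := by omega
        exact_mod_cast this
      have hj3 : 2 * ((n : ℚ) - C.card) ≤ n - 1 := by
        rw [← hj]
        have h4 : 2 * (n - C.card) ≤ n - 1 := by omega
        have h5 : ((2 * (n - C.card) : ℕ) : ℚ) ≤ ((n - 1 : ℕ) : ℚ) := by exact_mod_cast h4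
        rw [Nat.cast_sub (by omega : 1 ≤ n)] at h5
        push_cast at h5 ⊢
        exact h5
      have hp := poly_circ hnq hj2 hj3
      generalize (C.card : ℚ) = a at *
      generalize ((C.card / 2 : ℕ) : ℚ) = fl at *
      have h6 : 0 ≤ (((n : ℚ) - a) * ((n : ℚ) - a + 1)) * (a / 2 - fl) :=
        mul_nonneg (mul_nonneg (by linarith) (by linarith)) (by linarith)
      nlinarith
    · have h3 : C.card = n - 1 := by omega
      have h1 := h.dcN hC' (j := 1) (by omega)
      rw [h3] at h1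
      have h4 := two_gg (n := n) (by omega)
      unfold f2 at h4
      have h5 : n - 1 - 1 = n - 2 := by omega
      rw [h5] at h1
      generalize (n - 1) * (n - 2) = X at *
      omega
  have hL2 : ∀ C ∈ LL, 2 * C.card ≤ n := by
    intro C hC'
    by_contra hc
    push Not at hc
    have hlt := hL C hC'
    have h1 := h.direct_line hC' (j := n - C.card)
        (by rw [card_sdiff_of_subset (h.lP C hC')])
    have hf : ((C.card / 2 : ℕ) : ℚ) ≤ (C.card : ℚ) / 2 := Nat.cast_div_le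
    have hj : ((n - C.card : ℕ) : ℚ) = (n : ℚ) - C.card := by
      rw [Nat.cast_sub hlt.le]
    rw [hj] at h1
    have hj2 : (1 : ℚ) ≤ (n : ℚ) - C.card := by
      rw [← hj]
      have : 1 ≤ n - C.card := by omega
      exact_mod_cast this
    have hj3 : 2 * ((n : ℚ) - C.card) ≤ n - 1 := by
      rw [← hj]
      have h4 : 2 * (n - C.card) ≤ n - 1 := by omega
      have h5 : ((2 * (n - C.card) : ℕ) : ℚ) ≤ ((n - 1 : ℕ) : ℚ) := by exact_mod_cast h4
      rw [Nat.cast_sub (by omega : 1 ≤ n)] at h5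
      push_cast at h5 ⊢
      exact h5
    have hp := poly_line hnq hj2 hj3
    generalize (C.card : ℚ) = a at *
    generalize ((C.card / 2 : ℕ) : ℚ) = fl at *
    have h6 : 0 ≤ (((n : ℚ) - a) * ((n : ℚ) - a - 1)) * (a / 2 - fl) :=
      mul_nonneg (mul_nonneg (by linarith) (by linarith)) (by linarith)
    nlinarith
  -- final
  set K : ℚ := (n : ℚ) / 2 with hK
  have hK3 : 3 ≤ K := by rw [hK]; linarith
  have hD : 0 < K * (K + 2) := by positivity
  set al : ℚ := 2 * (K - 1) / (K * (K + 2)) with hal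
  have hal' : al * (K * (K + 2)) = 2 * (K - 1) := by
    rw [hal, div_mul_cancel₀ _ hD.ne']
  have hal0 : 0 ≤ al := by
    rw [hal]; apply div_nonneg _ hD.le; linarith
  have key := h.simple hK3 hal' (n := n) (by rw [hnn])
    (fun C hC' => by
      have h1 : ((2 * C.card : ℕ) : ℚ) ≤ n := by exact_mod_cast hC2 C hC'
      push_cast at h1
      rw [hK]; linarith)
    (fun L' hL' => by
      have h1 : ((2 * L'.card : ℕ) : ℚ) ≤ n := by exact_mod_cast hL2 L' hL'
      push_cast at h1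
      have h1' : (L'.card : ℚ) ≤ K := by rw [hK]; linarith
      have h2 : al * (K + 2) ≤ 2 := by
        have hKpos : 0 < K := by linarith
        have : (al * (K + 2)) * K ≤ 2 * K := by
          have e : (al * (K + 2)) * K = al * (K * (K + 2)) := by ring
          rw [e, hal']; linarith
        exact le_of_mul_le_mul_right this hKpos
      have h3 : al * ((L'.card : ℚ) + 2) ≤ al * (K + 2) :=
        mul_le_mul_of_nonneg_left (by linarith) hal0
      linarith)
  have hal2 : al * ((n : ℚ) * (n + 4)) = 4 * (n - 2) := by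
    have : al * (K * (K + 2)) * 4 = 2 * (K - 1) * 4 := by rw [hal']
    rw [hK] at this
    linarith
  have h7 : (al / 6 * (n * (((n : ℚ) - 1) * (n - 2))) - al * n + n - n * (n - 1) / 9)
      * (n + 4) ≤ (((n : ℚ) - 2) ^ 2 / 2) * (n + 4) :=
    mul_le_mul_of_nonneg_right (by linarith) (by linarith)
  have h8 : (al / 6 * (n * (((n : ℚ) - 1) * (n - 2))) - al * n + n - n * (n - 1) / 9)
      * (n + 4) = 4 * (n - 2) / 6 * (((n : ℚ) - 1) * (n - 2)) - 4 * (n - 2)
        + n * (n + 4) - n * (n - 1) / 9 * (n + 4) := by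
    rw [← hal2]; ring
  rw [h8] at h7
  have h9 := poly_fin hnq
  nlinarith

/-- the abstract lower bound -/
theorem main (hn : 15 ≤ P.card) (hC : ∀ C ∈ CC, C.card < P.card)
    (hL : ∀ C ∈ LL, C.card < P.card) : gg P.card ≤ CC.card := by
  rcases Nat.lt_or_ge 47 P.card with h47 | h47
  · exact h.big (by omega) hC hL
  by_contra hcon
  push Not at hcon
  apply absurd hcon
  push Not
  -- the maximal circle
  have hfam : ∀ K K' L : ℕ, 3 ≤ K' → (∀ a ∈ Finset.Icc (K + 1) (P.card - 1), dcOK P.card a) →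
      (∀ a ∈ Finset.Icc (L + 1) (P.card - 1), dlOK P.card a) →
      (∀ a, K' < a → a ≤ K → famOK P.card a L) → sOK P.card K' → lOK K' L →
      gg P.card ≤ CC.card := by
    intro K K' L hK' h1 h2 h3 h4 h5
    have hc1 := h.circ_le (by omega) hC h1 hcon
    have hl1 := h.line_le (by omega) hL h2 hcon
    by_cases hmax : ∀ C ∈ CC, C.card ≤ K'
    · exact h.simpleN (by omega) hK' hmax hl1 h4 h5
    · push Not at hmax
      obtain ⟨C0, hC0, hC0'⟩ := hmax
      obtain ⟨M, hM, hMmax⟩ := exists_max_image CC Finset.card ⟨C0, hC0⟩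
      have hMK : K' < M.card := lt_of_lt_of_le hC0' (hMmax C0 hC0)
      exact h.famN (by omega) hM rfl hMmax hl1 (h3 _ hMK (hc1 M hM))
  by_cases h20 : P.card = 15 ∨ P.card = 16 ∨ P.card = 17 ∨ P.card = 18 ∨ P.card = 20 ∨
      P.card = 22
  · obtain ⟨f1, f2, f3, f4, f5, f6, f7, f8⟩ := fam_all
    rcases h20 with h0 | h0 | h0 | h0 | h0 | h0
    · obtain ⟨t1, t2, t3, t4⟩ := tab15
      rw [h0] at hfam ⊢
      refine hfam 7 5 7 (by norm_num) t1 t2 ?_ t3 t4
      intro a ha ha'
      interval_cases a <;> assumption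
    · obtain ⟨t1, t2, t3, t4⟩ := tab16
      rw [h0] at hfam ⊢
      refine hfam 8 6 7 (by norm_num) t1 t2 ?_ t3 t4
      intro a ha ha'
      interval_cases a <;> assumption
    · obtain ⟨t1, t2, t3, t4⟩ := tab17
      rw [h0] at hfam ⊢
      refine hfam 8 7 8 (by norm_num) t1 t2 ?_ t3 t4
      intro a ha ha'
      interval_cases a <;> assumption
    · obtain ⟨t1, t2, t3, t4⟩ := tab18
      rw [h0] at hfam ⊢
      refine hfam 8 7 8 (by norm_num) t1 t2 ?_ t3 t4
      intro a ha ha'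
      interval_cases a <;> assumption
    · obtain ⟨t1, t2, t3, t4⟩ := tab20
      rw [h0] at hfam ⊢
      refine hfam 9 8 8 (by norm_num) t1 t2 ?_ t3 t4
      intro a ha ha'
      interval_cases a <;> assumption
    · obtain ⟨t1, t2, t3, t4⟩ := tab22
      rw [h0] at hfam ⊢
      refine hfam 10 9 9 (by norm_num) t1 t2 ?_ t3 t4
      intro a ha ha'
      interval_cases a <;> assumption
  · push Not at h20
    obtain ⟨n1, n2, n3, n4, n5, n6⟩ := h20
    obtain ⟨K, hK, L, _, t1, t2, t3, t4⟩ := tab P.card (mem_Icc.2 ⟨by omega, h47⟩) n5 n6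
    exact hfam K K L (mem_Icc.1 hK).1 t1 t2 (fun a ha ha' => by omega) t3 t4

end Sys

end

end Pool.Agent.U272.Circ
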