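import Mathlib
import Pool.Agent.Helper543.Melchior

/-! Circles and lines through a finite planar set; Melchior's inequality after an inversion. -/

namespace Pool.Agent.U272.Circ

open Finset Pool.Agent.Helper543.Melchior

noncomputable section

open scoped Classical

/-- squared distance -/
def nn (x y : Pt) : ℝ := (x.1 - y.1) ^ 2 + (x.2 - y.2) ^ 2

lemma nn_pos {x y : Pt} (h : x ≠ y) : 0 < nn x y := by
  unfold nn
  by_contra hcon
  have h1 : (x.1 - y.1) ^ 2 = 0 := by nlinarith [sq_nonneg (x.1 - y.1), sq_nonneg (x.2 - y.2)]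
  have h2 : (x.2 - y.2) ^ 2 = 0 := by nlinarith [sq_nonneg (x.1 - y.1), sq_nonneg (x.2 - y.2)]
  apply h
  ext
  · have := pow_eq_zero_iff (n := 2) (by norm_num) |>.1 h1; linarith
  · have := pow_eq_zero_iff (n := 2) (by norm_num) |>.1 h2; linarith

/-- vanishes iff `a b c x` lie on a common circle or line -/
def dt (a b c x : Pt) : ℝ :=
  nn b a * ((c.1 - a.1) * (x.2 - a.2) - (c.2 - a.2) * (x.1 - a.1))
  - nn c a * ((b.1 - a.1) * (x.2 - a.2) - (b.2 - a.2) * (x.1 - a.1))
  + nn x a * ((b.1 - a.1) * (c.2 - a.2) - (b.2 - a.2) * (c.1 - a.1))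

lemma dt_swap12 (a b c x : Pt) : dt b a c x = - dt a b c x := by unfold dt nn; ring
lemma dt_swap23 (a b c x : Pt) : dt a c b x = - dt a b c x := by unfold dt nn; ring
lemma dt_swap34 (a b c x : Pt) : dt a b x c = - dt a b c x := by unfold dt nn; ring

lemma dt_self1 (a b c : Pt) : dt a b c a = 0 := by unfold dt nn; ring
lemma dt_self2 (a b c : Pt) : dt a b c b = 0 := by unfold dt nn; ring
lemma dt_self3 (a b c : Pt) : dt a b c c = 0 := by unfold dt nn; ring
lemma dt_self12 (a c x : Pt) : dt a a c x = 0 := by unfold dt nn; ring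

/-- inversion with centre `p`, the image translated by `-p` -/
def inv (p x : Pt) : Pt := ((x.1 - p.1) / nn x p, (x.2 - p.2) / nn x p)

lemma cr_inv {p a b c : Pt} (ha : a ≠ p) (hb : b ≠ p) (hc : c ≠ p) :
    cr (inv p a) (inv p b) (inv p c) = dt p a b c / (nn a p * nn b p * nn c p) := by
  have h1 := (nn_pos ha).ne'
  have h2 := (nn_pos hb).ne'
  have h3 := (nn_pos hc).ne'
  unfold cr inv dt
  simp only
  field_simp
  ring

lemma cr_inv0 {p a b : Pt} (ha : a ≠ p) (hb : b ≠ p) :
    cr 0 (inv p a) (inv p b) = cr p a b / (nn a p * nn b p) := by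
  have h1 := (nn_pos ha).ne'
  have h2 := (nn_pos hb).ne'
  unfold cr inv
  simp only [Prod.fst_zero, Prod.snd_zero]
  field_simp
  ring

lemma cr_inv_eq {p a b c : Pt} (ha : a ≠ p) (hb : b ≠ p) (hc : c ≠ p) :
    cr (inv p a) (inv p b) (inv p c) = 0 ↔ dt p a b c = 0 := by
  rw [cr_inv ha hb hc, div_eq_zero_iff]
  have h1 := (nn_pos ha).ne'
  have h2 := (nn_pos hb).ne'
  have h3 := (nn_pos hc).ne'
  simp [h1, h2, h3]

lemma cr_inv0_eq {p a b : Pt} (ha : a ≠ p) (hb : b ≠ p) :
    cr 0 (inv p a) (inv p b) = 0 ↔ cr p a b = 0 := by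
  rw [cr_inv0 ha hb, div_eq_zero_iff]
  have h1 := (nn_pos ha).ne'
  have h2 := (nn_pos hb).ne'
  simp [h1, h2]

lemma nn_inv {p x : Pt} (h : x ≠ p) : nn (inv p x) 0 = 1 / nn x p := by
  have h1 := (nn_pos h).ne'
  unfold nn at h1
  unfold inv nn
  simp only [Prod.fst_zero, Prod.snd_zero, sub_zero]
  field_simp

lemma inv_ne_zero {p x : Pt} (h : x ≠ p) : inv p x ≠ 0 := by
  intro h0
  have h1 := nn_inv h
  rw [h0] at h1
  have h2 := nn_pos h
  have : nn (0 : Pt) 0 = 0 := by simp [nn]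
  rw [this] at h1
  have : 0 < 1 / nn x p := by positivity
  linarith

lemma inv_inj {p x y : Pt} (hx : x ≠ p) (hy : y ≠ p) (h : inv p x = inv p y) : x = y := by
  have h1 := nn_inv hx
  have h2 := nn_inv hy
  rw [h, h2] at h1
  have hx' := nn_pos hx
  have hy' := nn_pos hy
  have h3 : nn x p = nn y p := by
    rw [one_div, one_div] at h1
    exact (inv_injective h1).symm
  unfold inv at h
  rw [Prod.ext_iff] at h
  simp only at h
  rw [h3] at h
  have e1 := h.1
  have e2 := h.2
  rw [div_left_inj' hy'.ne'] at e1 e2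
  ext <;> linarith

end

end Pool.Agent.U272.Circ
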