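import Mathlib
import Pool.Agent.U272.Circ.Geo

/-! Blocks (circles and lines) determined by a finite planar set. -/

namespace Pool.Agent.U272.Circ

open Finset Pool.Agent.Helper543.Melchior

noncomputable section

open scoped Classical

/-- the generalised circle through `a b c` -/
def Z (a b c : Pt) : Set Pt := {w | dt a b c w = 0}

lemma mem_Z {a b c w : Pt} : w ∈ Z a b c ↔ dt a b c w = 0 := Iff.rfl

lemma Z_swap12 (a b c : Pt) : Z b a c = Z a b c := by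
  ext w; rw [mem_Z, mem_Z, dt_swap12]; simp

lemma Z_swap23 (a b c : Pt) : Z a c b = Z a b c := by
  ext w; rw [mem_Z, mem_Z, dt_swap23]; simp

lemma mem_Z1 (a b c : Pt) : a ∈ Z a b c := dt_self1 a b c
lemma mem_Z2 (a b c : Pt) : b ∈ Z a b c := dt_self2 a b c
lemma mem_Z3 (a b c : Pt) : c ∈ Z a b c := dt_self3 a b c

lemma exch {p b c x y : Pt} (hb : b ≠ p) (hc : c ≠ p) (hx : x ≠ p) (hy : y ≠ p)
    (hbc : b ≠ c) (hxy : x ≠ y) (h1 : x ∈ Z p b c) (h2 : y ∈ Z p b c) :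
    Z p x y = Z p b c := by
  have hbc' : inv p b ≠ inv p c := fun h => hbc (inv_inj hb hc h)
  have hxy' : inv p x ≠ inv p y := fun h => hxy (inv_inj hx hy h)
  have e1 := (cr_inv_eq hb hc hx).2 h1
  have e2 := (cr_inv_eq hb hc hy).2 h2
  obtain ⟨s, hs1, hs2⟩ := exists_param hbc' e1
  obtain ⟨t, ht1, ht2⟩ := exists_param hbc' e2
  have hst : t - s ≠ 0 := by
    intro h
    have : t = s := by linarith
    subst this
    apply hxy'
    ext <;> linarith
  ext z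
  by_cases hz : z = p
  · subst hz
    exact ⟨fun _ => mem_Z1 _ _ _, fun _ => mem_Z1 _ _ _⟩
  · rw [mem_Z, mem_Z, ← cr_inv_eq hx hy hz, ← cr_inv_eq hb hc hz,
      cr_param hs1 hs2 ht1 ht2 (inv p z)]
    simp [hst]

lemma Z_eq_aux {a b c u v t : Pt} (hab : a ≠ b) (hac : a ≠ c) (hbc : b ≠ c)
    (hu : u ∈ Z a b c) (hv : v ∈ Z a b c) (ht : t ∈ Z a b c)
    (hua : u ≠ a) (hva : v ≠ a) (huv : u ≠ v) (hut : u ≠ t) (hvt : v ≠ t) :
    Z u v t = Z a b c := by
  have e1 : Z a u v = Z a b c := exch hab.symm hac.symm hua hva hbc huv hu hv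
  have e2 : Z u a v = Z a b c := by rw [Z_swap12]; exact e1
  have e3 : Z u v t = Z u a v := by
    apply exch hua.symm huv.symm huv.symm hut.symm hva.symm hvt
    · exact mem_Z3 _ _ _
    · rw [e2]; exact ht
  rw [e3, e2]

lemma Z_eq {a b c x y z : Pt} (hab : a ≠ b) (hac : a ≠ c) (hbc : b ≠ c)
    (hx : x ∈ Z a b c) (hy : y ∈ Z a b c) (hz : z ∈ Z a b c)
    (hxy : x ≠ y) (hxz : x ≠ z) (hyz : y ≠ z) :
    Z x y z = Z a b c := by
  by_cases hxa : x = a
  · have hya : y ≠ a := by rw [← hxa]; exact hxy.symm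
    have hza : z ≠ a := by rw [← hxa]; exact hxz.symm
    have := Z_eq_aux hab hac hbc hy hz hx hya hza hyz hxy.symm hxz.symm
    rw [← this, Z_swap23 y x z, Z_swap12]
  · by_cases hya : y = a
    · have hza : z ≠ a := by rw [← hya]; exact hyz.symm
      have := Z_eq_aux hab hac hbc hx hz hy hxa hza hxz hxy hyz.symm
      rw [← this, Z_swap23]
    · exact Z_eq_aux hab hac hbc hx hy hz hxa hya hxy hxz hyz

/-- for collinear `x y z` the block is the line -/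
lemma Z_line {x y z w : Pt} (hxy : x ≠ y) (hxz : x ≠ z) (hyz : y ≠ z) (h : cr x y z = 0) :
    w ∈ Z x y z ↔ cr x y w = 0 := by
  obtain ⟨s, hs1, hs2⟩ := exists_param hxy h
  have hs0 : s ≠ 0 := by
    intro h0
    subst h0
    apply hxz
    ext <;> linarith
  have hs1' : s ≠ 1 := by
    intro h0
    subst h0
    apply hyz
    ext <;> linarith
  have e1 : z.1 = x.1 + s * (y.1 - x.1) := by linarith
  have e2 : z.2 = x.2 + s * (y.2 - x.2) := by linarith
  have key : dt x y z w = nn y x * (s * (1 - s)) * cr x y w := by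
    unfold dt nn cr
    rw [e1, e2]
    ring
  rw [mem_Z, key]
  have h1 := (nn_pos hxy.symm).ne'
  have h2 : 1 - s ≠ 0 := fun h => hs1' (by linarith)
  simp [h1, hs0, h2]

lemma cr_swap23 (a b c : Pt) : cr a c b = - cr a b c := by simp [cr]; ring

lemma ne_of_cr {a b c : Pt} (h : cr a b c ≠ 0) : a ≠ b ∧ a ≠ c ∧ b ≠ c := by
  refine ⟨?_, ?_, ?_⟩ <;> rintro rfl <;> apply h <;> simp [cr] <;> ring

/-- three distinct points of a proper circle are not collinear -/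
lemma cr_ne_of_Z {a b c x y z : Pt} (h : cr a b c ≠ 0)
    (hx : x ∈ Z a b c) (hy : y ∈ Z a b c) (hz : z ∈ Z a b c)
    (hxy : x ≠ y) (hxz : x ≠ z) (hyz : y ≠ z) : cr x y z ≠ 0 := by
  obtain ⟨hab, hac, hbc⟩ := ne_of_cr h
  intro h0
  have e := Z_eq hab hac hbc hx hy hz hxy hxz hyz
  have ha : a ∈ Z x y z := by rw [e]; exact mem_Z1 _ _ _
  have hb : b ∈ Z x y z := by rw [e]; exact mem_Z2 _ _ _
  have hc : c ∈ Z x y z := by rw [e]; exact mem_Z3 _ _ _
  rw [Z_line hxy hxz hyz h0] at ha hb hc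
  obtain ⟨s, hs1, hs2⟩ := exists_param hxy ha
  obtain ⟨t, ht1, ht2⟩ := exists_param hxy hb
  apply h
  rw [cr_param hs1 hs2 ht1 ht2, hc, mul_zero]

/-- points of `P` on the block through `a b c` -/
def blk (P : Finset Pt) (a b c : Pt) : Finset Pt := P.filter (fun x => x ∈ Z a b c)

lemma mem_blk {P : Finset Pt} {a b c x : Pt} : x ∈ blk P a b c ↔ x ∈ P ∧ x ∈ Z a b c := by
  simp [blk]

/-- the circles (as subsets of `P`) determined by `P` -/
def circs (P : Finset Pt) : Finset (Finset Pt) :=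
  ((P ×ˢ P ×ˢ P).filter (fun t => cr t.1 t.2.1 t.2.2 ≠ 0)).image
    (fun t => blk P t.1 t.2.1 t.2.2)

lemma mem_circs {P : Finset Pt} {C : Finset Pt} : C ∈ circs P ↔
    ∃ a ∈ P, ∃ b ∈ P, ∃ c ∈ P, cr a b c ≠ 0 ∧ C = blk P a b c := by
  simp only [circs, mem_image, mem_filter, mem_product]
  constructor
  · rintro ⟨⟨a, b, c⟩, ⟨⟨ha, hb, hc⟩, h⟩, rfl⟩
    exact ⟨a, ha, b, hb, c, hc, h, rfl⟩
  · rintro ⟨a, ha, b, hb, c, hc, h, rfl⟩
    exact ⟨⟨a, b, c⟩, ⟨⟨ha, hb, hc⟩, h⟩, rfl⟩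

lemma circ_subset {P C : Finset Pt} (h : C ∈ circs P) : C ⊆ P := by
  obtain ⟨a, _, b, _, c, _, _, rfl⟩ := mem_circs.1 h
  exact filter_subset _ _

lemma circ_cr {P C : Finset Pt} (h : C ∈ circs P) {x y z : Pt} (hx : x ∈ C) (hy : y ∈ C)
    (hz : z ∈ C) (hxy : x ≠ y) (hxz : x ≠ z) (hyz : y ≠ z) : cr x y z ≠ 0 := by
  obtain ⟨a, _, b, _, c, _, h', rfl⟩ := mem_circs.1 h
  exact cr_ne_of_Z h' (mem_blk.1 hx).2 (mem_blk.1 hy).2 (mem_blk.1 hz).2 hxy hxz hyz

lemma circ_eq {P C : Finset Pt} (h : C ∈ circs P) {x y z : Pt} (hx : x ∈ C) (hy : y ∈ C)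
    (hz : z ∈ C) (hxy : x ≠ y) (hxz : x ≠ z) (hyz : y ≠ z) : C = blk P x y z := by
  obtain ⟨a, _, b, _, c, _, h', rfl⟩ := mem_circs.1 h
  obtain ⟨hab, hac, hbc⟩ := ne_of_cr h'
  have := Z_eq hab hac hbc (mem_blk.1 hx).2 (mem_blk.1 hy).2 (mem_blk.1 hz).2 hxy hxz hyz
  unfold blk
  rw [this]

lemma circ_three {P C : Finset Pt} (h : C ∈ circs P) : ∃ a ∈ C, ∃ b ∈ C, ∃ c ∈ C,
    cr a b c ≠ 0 := by
  obtain ⟨a, ha, b, hb, c, hc, h', rfl⟩ := mem_circs.1 h
  exact ⟨a, mem_blk.2 ⟨ha, mem_Z1 _ _ _⟩, b, mem_blk.2 ⟨hb, mem_Z2 _ _ _⟩, c,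
    mem_blk.2 ⟨hc, mem_Z3 _ _ _⟩, h'⟩

lemma circ_card {P C : Finset Pt} (h : C ∈ circs P) : 3 ≤ C.card := by
  obtain ⟨a, ha, b, hb, c, hc, h⟩ := circ_three h
  obtain ⟨hab, hac, hbc⟩ := ne_of_cr h
  have : ({a, b, c} : Finset Pt) ⊆ C := by
    intro x hx
    simp only [mem_insert, mem_singleton] at hx
    rcases hx with rfl | rfl | rfl <;> assumption
  have h2 := card_le_card this
  rw [card_eq_three.2 ⟨a, b, c, hab, hac, hbc, rfl⟩] at h2
  exact h2

lemma line_cr {P L : Finset Pt} (h : L ∈ lines P) {x y z : Pt} (hx : x ∈ L) (hy : y ∈ L)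
    (hz : z ∈ L) : cr x y z = 0 := by
  by_cases hxy : x = y
  · subst hxy; simp [cr]
  · rw [eq_lineOf h hx hy hxy, mem_lineOf] at hz
    exact hz.2

lemma line_eq_blk {P L : Finset Pt} (h : L ∈ lines P) {x y z : Pt} (hx : x ∈ L) (hy : y ∈ L)
    (hz : z ∈ L) (hxy : x ≠ y) (hxz : x ≠ z) (hyz : y ≠ z) : L = blk P x y z := by
  rw [eq_lineOf h hx hy hxy]
  ext w
  rw [mem_lineOf, mem_blk, Z_line hxy hxz hyz (line_cr h hx hy hz)]

lemma line_card {P L : Finset Pt} (h : L ∈ lines P) : 2 ≤ L.card := by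
  obtain ⟨a, ha, b, hb, hab⟩ := exists_two h
  have : ({a, b} : Finset Pt) ⊆ L := by
    intro x hx
    simp only [mem_insert, mem_singleton] at hx
    rcases hx with rfl | rfl <;> assumption
  have h2 := card_le_card this
  rw [card_pair hab] at h2
  exact h2

/-- a circle block is not a line block -/
lemma disj (P : Finset Pt) : Disjoint (circs P) (lines P) := by
  rw [Finset.disjoint_left]
  intro C hC hL
  obtain ⟨a, ha, b, hb, c, hc, h⟩ := circ_three hC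
  exact h (line_cr hL ha hb hc)

/-- a block is determined by three of its points -/
lemma block_eq {P B : Finset Pt} (h : B ∈ circs P ∪ lines P) {x y z : Pt} (hx : x ∈ B)
    (hy : y ∈ B) (hz : z ∈ B) (hxy : x ≠ y) (hxz : x ≠ z) (hyz : y ≠ z) : B = blk P x y z := by
  rcases mem_union.1 h with h | h
  · exact circ_eq h hx hy hz hxy hxz hyz
  · exact line_eq_blk h hx hy hz hxy hxz hyz

lemma block_ex {P : Finset Pt} {x y z : Pt} (hx : x ∈ P) (hy : y ∈ P) (hz : z ∈ P)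
    (hxy : x ≠ y) (hxz : x ≠ z) (hyz : y ≠ z) : blk P x y z ∈ circs P ∪ lines P := by
  by_cases h : cr x y z = 0
  · apply mem_union_right
    have hL := lineOf_mem_lines hx hy hxy
    have e := line_eq_blk hL (mem_lineOf.2 ⟨hx, cr_self_left _ _⟩)
      (mem_lineOf.2 ⟨hy, cr_self_right _ _⟩) (mem_lineOf.2 ⟨hz, h⟩) hxy hxz hyz
    rw [← e]
    exact hL
  · apply mem_union_left
    exact mem_circs.2 ⟨x, hx, y, hy, z, hz, h, rfl⟩

end

end Pool.Agent.U272.Circ
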