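import Mathlib
import Pool.Agent.U272.Circ.Geo2

/-! Melchior's inequality after an inversion centred at a point of the set. -/

namespace Pool.Agent.U272.Circ

open Finset Pool.Agent.Helper543.Melchior

noncomputable section

open scoped Classical

/-- the inverted set -/
def im (p : Pt) (B : Finset Pt) : Finset Pt := (B.erase p).image (inv p)

lemma mem_im {p y : Pt} {B : Finset Pt} : y ∈ im p B ↔ ∃ x ∈ B, x ≠ p ∧ inv p x = y := by
  simp only [im, mem_image, mem_erase]
  constructor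
  · rintro ⟨x, ⟨h1, h2⟩, h3⟩; exact ⟨x, h2, h1, h3⟩
  · rintro ⟨x, h2, h1, h3⟩; exact ⟨x, ⟨h1, h2⟩, h3⟩

lemma card_im {p : Pt} {B : Finset Pt} (h : p ∈ B) : (im p B).card + 1 = B.card := by
  rw [im, card_image_of_injOn, card_erase_add_one h]
  intro x hx y hy hxy
  simp only [coe_erase, Set.mem_diff, Set.mem_singleton_iff] at hx hy
  exact inv_inj hx.2 hy.2 hxy

lemma im_inj {p : Pt} {B B' : Finset Pt} (h : p ∈ B) (h' : p ∈ B') (e : im p B = im p B') :
    B = B' := by
  ext x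
  by_cases hx : x = p
  · subst hx; simp [h, h']
  · have key : ∀ D : Finset Pt, x ∈ D ↔ inv p x ∈ im p D := by
      intro D
      rw [mem_im]
      constructor
      · intro hD; exact ⟨x, hD, hx, rfl⟩
      · rintro ⟨y, hy, hyp, hxy⟩
        rw [← inv_inj hyp hx hxy]
        exact hy
    rw [key B, key B', e]

lemma zero_notMem_im (p : Pt) (B : Finset Pt) : (0 : Pt) ∉ im p B := by
  rw [mem_im]
  rintro ⟨x, _, hx, h⟩
  exact inv_ne_zero hx h

lemma im_blk {P : Finset Pt} {p b c : Pt} (hb : b ≠ p) (hc : c ≠ p) :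
    im p (blk P p b c) = lineOf (im p P) (inv p b) (inv p c) := by
  ext y
  rw [mem_im, mem_lineOf, mem_im]
  constructor
  · rintro ⟨x, hx, hxp, rfl⟩
    rw [mem_blk, mem_Z, ← cr_inv_eq hb hc hxp] at hx
    exact ⟨⟨x, hx.1, hxp, rfl⟩, hx.2⟩
  · rintro ⟨⟨x, hx, hxp, rfl⟩, h⟩
    refine ⟨x, ?_, hxp, rfl⟩
    rw [mem_blk, mem_Z, ← cr_inv_eq hb hc hxp]
    exact ⟨hx, h⟩

lemma im_blk' {P : Finset Pt} {p b c : Pt} (hb : b ≠ p) (hc : c ≠ p) (h : cr p b c ≠ 0) :
    im p (blk P p b c) = lineOf (insert 0 (im p P)) (inv p b) (inv p c) := by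
  rw [im_blk hb hc]
  ext y
  rw [mem_lineOf, mem_lineOf, mem_insert]
  constructor
  · rintro ⟨h1, h2⟩; exact ⟨Or.inr h1, h2⟩
  · rintro ⟨h1 | h1, h2⟩
    · exfalso
      subst h1
      apply h
      rw [← cr_inv0_eq hb hc]
      have : cr 0 (inv p b) (inv p c) = cr (inv p b) (inv p c) 0 := by
        simp [cr]; ring
      rw [this, h2]
    · exact ⟨h1, h2⟩

lemma im_line {P : Finset Pt} {p b : Pt} (hb : b ≠ p) :
    insert 0 (im p (lineOf P p b)) = lineOf (insert 0 (im p P)) 0 (inv p b) := by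
  ext y
  rw [mem_lineOf, mem_insert, mem_insert, mem_im, mem_im]
  constructor
  · rintro (rfl | ⟨x, hx, hxp, rfl⟩)
    · exact ⟨Or.inl rfl, cr_self_left _ _⟩
    · rw [mem_lineOf] at hx
      refine ⟨Or.inr ⟨x, hx.1, hxp, rfl⟩, ?_⟩
      rw [cr_inv0_eq hb hxp]
      exact hx.2
  · rintro ⟨rfl | ⟨x, hx, hxp, rfl⟩, h⟩
    · exact Or.inl rfl
    · right
      refine ⟨x, ?_, hxp, rfl⟩
      rw [mem_lineOf]
      rw [cr_inv0_eq hb hxp] at h
      exact ⟨hx, h⟩

/-- Melchior's inequality in signed form -/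
lemma melchior' {S : Finset Pt} (hS : ∃ a ∈ S, ∃ b ∈ S, ∃ c ∈ S, cr a b c ≠ 0) :
    (3 : ℤ) ≤ ∑ L ∈ lines S, (3 - (L.card : ℤ)) := by
  have h := melchior hS
  rw [sum_sub_distrib, sum_const, nsmul_eq_mul]
  zify at h
  linarith

/-- all blocks with at least three points -/
def gen (P : Finset Pt) : Finset (Finset Pt) := circs P ∪ (lines P).filter (fun L => 3 ≤ L.card)

lemma mem_gen {P B : Finset Pt} : B ∈ gen P ↔ B ∈ circs P ∪ lines P ∧ 3 ≤ B.card := by
  simp only [gen, mem_union, mem_filter]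
  constructor
  · rintro (h | h)
    · exact ⟨Or.inl h, circ_card h⟩
    · exact ⟨Or.inr h.1, h.2⟩
  · rintro ⟨h | h, h'⟩
    · exact Or.inl h
    · exact Or.inr ⟨h, h'⟩

lemma exists_two_more {B : Finset Pt} {p : Pt} (hp : p ∈ B) (h : 3 ≤ B.card) :
    ∃ b ∈ B, ∃ c ∈ B, b ≠ p ∧ c ≠ p ∧ b ≠ c := by
  have h1 : 1 < (B.erase p).card := by rw [card_erase_of_mem hp]; omega
  obtain ⟨b, hb, c, hc, hbc⟩ := one_lt_card.1 h1
  rw [mem_erase] at hb hc
  exact ⟨b, hb.2, c, hc.2, hb.1, hc.1, hbc⟩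

lemma exists_one_more {B : Finset Pt} {p : Pt} (hp : p ∈ B) (h : 2 ≤ B.card) :
    ∃ b ∈ B, b ≠ p := by
  have h1 : 0 < (B.erase p).card := by rw [card_erase_of_mem hp]; omega
  obtain ⟨b, hb⟩ := card_pos.1 h1
  rw [mem_erase] at hb
  exact ⟨b, hb.2, hb.1⟩

/-- Melchior's inequality for the set inverted at `p` -/
lemma m0 {P : Finset Pt} {p : Pt} (hp : p ∈ P) (h3 : 3 ≤ P.card)
    (hne : ∀ B ∈ circs P ∪ lines P, B ≠ P) :
    (3 : ℤ) ≤ ∑ B ∈ (gen P).filter (fun B => p ∈ B), (4 - (B.card : ℤ)) := by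
  have hS : ∃ a ∈ im p P, ∃ b ∈ im p P, ∃ c ∈ im p P, cr a b c ≠ 0 := by
    obtain ⟨b, hb, c, hc, hbp, hcp, hbc⟩ := exists_two_more hp h3
    have hB := block_ex hp hb hc hbp.symm hcp.symm hbc
    have hB2 := hne _ hB
    have hsub : blk P p b c ⊆ P := filter_subset _ _
    obtain ⟨d, hdP, hd⟩ : ∃ d ∈ P, d ∉ blk P p b c := by
      by_contra hcon
      push Not at hcon
      exact hB2 (subset_antisymm hsub hcon)
    rw [mem_blk] at hd
    have hdZ : d ∉ Z p b c := fun h => hd ⟨hdP, h⟩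
    have hdp : d ≠ p := fun h => hdZ (h ▸ mem_Z1 _ _ _)
    refine ⟨inv p b, mem_im.2 ⟨b, hb, hbp, rfl⟩, inv p c, mem_im.2 ⟨c, hc, hcp, rfl⟩,
      inv p d, mem_im.2 ⟨d, hdP, hdp, rfl⟩, ?_⟩
    rw [Ne, cr_inv_eq hbp hcp hdp]
    exact hdZ
  refine (melchior' hS).trans (le_of_eq ?_)
  symm
  apply Finset.sum_nbij (fun B => im p B)
  · intro B hB
    rw [mem_filter, mem_gen] at hB
    obtain ⟨⟨hB1, hB2⟩, hpB⟩ := hB
    obtain ⟨b, hb, c, hc, hbp, hcp, hbc⟩ := exists_two_more hpB hB2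
    have e := block_eq hB1 hpB hb hc hbp.symm hcp.symm hbc
    have hsub : B ⊆ P := by rw [e]; exact filter_subset _ _
    show im p B ∈ lines (im p P)
    rw [e, im_blk hbp hcp]
    exact lineOf_mem_lines (mem_im.2 ⟨b, hsub hb, hbp, rfl⟩) (mem_im.2 ⟨c, hsub hc, hcp, rfl⟩)
      (fun h => hbc (inv_inj hbp hcp h))
  · intro B hB B' hB' h
    simp only [coe_filter, Set.mem_setOf_eq] at hB hB'
    exact im_inj hB.2 hB'.2 h
  · intro L hL
    rw [mem_coe] at hL
    obtain ⟨u, hu, v, hv, huv⟩ := exists_two hL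
    have hL' := eq_lineOf hL hu hv huv
    obtain ⟨b, hb, hbp, rfl⟩ := mem_im.1 (line_subset hL hu)
    obtain ⟨c, hc, hcp, rfl⟩ := mem_im.1 (line_subset hL hv)
    have hbc : b ≠ c := fun h => huv (by rw [h])
    refine ⟨blk P p b c, ?_, ?_⟩
    · simp only [coe_filter, Set.mem_setOf_eq]
      refine ⟨mem_gen.2 ⟨block_ex hp hb hc hbp.symm hcp.symm hbc, ?_⟩,
        mem_blk.2 ⟨hp, mem_Z1 _ _ _⟩⟩
      have : ({p, b, c} : Finset Pt) ⊆ blk P p b c := by
        intro x hx
        simp only [mem_insert, mem_singleton] at hx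
        rcases hx with rfl | rfl | rfl
        · exact mem_blk.2 ⟨hp, mem_Z1 _ _ _⟩
        · exact mem_blk.2 ⟨hb, mem_Z2 _ _ _⟩
        · exact mem_blk.2 ⟨hc, mem_Z3 _ _ _⟩
      have h2 := card_le_card this
      rw [card_eq_three.2 ⟨p, b, c, hbp.symm, hcp.symm, hbc, rfl⟩] at h2
      exact h2
    · show im p (blk P p b c) = L
      rw [im_blk hbp hcp, ← hL']
  · intro B hB
    rw [mem_filter] at hB
    have := card_im hB.2
    show 4 - (B.card : ℤ) = 3 - ((im p B).card : ℤ)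
    rw [← this]
    push_cast
    ring

/-- Melchior's inequality for the set inverted at `p`, with the image of infinity added -/
lemma m1 {P : Finset Pt} {p : Pt} (hp : p ∈ P) (h3 : 3 ≤ P.card)
    (hne : ∀ B ∈ lines P, B ≠ P) :
    (3 : ℤ) ≤ ∑ B ∈ (circs P).filter (fun B => p ∈ B), (4 - (B.card : ℤ)) +
      ∑ L ∈ (lines P).filter (fun B => p ∈ B), (3 - (L.card : ℤ)) := by
  have hS : ∃ a ∈ insert 0 (im p P), ∃ b ∈ insert 0 (im p P), ∃ c ∈ insert 0 (im p P),
      cr a b c ≠ 0 := by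
    obtain ⟨b, hb, hbp⟩ := exists_one_more hp (by omega)
    have hB := lineOf_mem_lines hp hb hbp.symm
    have hB2 := hne _ hB
    have hsub : lineOf P p b ⊆ P := filter_subset _ _
    obtain ⟨d, hdP, hd⟩ : ∃ d ∈ P, d ∉ lineOf P p b := by
      by_contra hcon
      push Not at hcon
      exact hB2 (subset_antisymm hsub hcon)
    rw [mem_lineOf] at hd
    have hd' : cr p b d ≠ 0 := fun h => hd ⟨hdP, h⟩
    have hdp : d ≠ p := (ne_of_cr hd').2.1.symm
    refine ⟨0, mem_insert_self _ _, inv p b, mem_insert_of_mem (mem_im.2 ⟨b, hb, hbp, rfl⟩),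
      inv p d, mem_insert_of_mem (mem_im.2 ⟨d, hdP, hdp, rfl⟩), ?_⟩
    rw [Ne, cr_inv0_eq hbp hdp]
    exact hd'
  refine (melchior' hS).trans (le_of_eq ?_)
  rw [← sum_filter_not_add_sum_filter (lines (insert 0 (im p P))) (fun L => (0 : Pt) ∈ L)]
  congr 1
  · symm
    apply Finset.sum_nbij (fun B => im p B)
    · intro B hB
      rw [mem_filter] at hB
      obtain ⟨hB1, hpB⟩ := hB
      obtain ⟨b, hb, c, hc, hbp, hcp, hbc⟩ := exists_two_more hpB (circ_card hB1)
      have e := circ_eq hB1 hpB hb hc hbp.symm hcp.symm hbc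
      have hcr := circ_cr hB1 hpB hb hc hbp.symm hcp.symm hbc
      have hsub : B ⊆ P := circ_subset hB1
      rw [mem_filter]
      refine ⟨?_, zero_notMem_im _ _⟩
      show im p B ∈ lines (insert 0 (im p P))
      rw [e, im_blk' hbp hcp hcr]
      exact lineOf_mem_lines (mem_insert_of_mem (mem_im.2 ⟨b, hsub hb, hbp, rfl⟩))
        (mem_insert_of_mem (mem_im.2 ⟨c, hsub hc, hcp, rfl⟩))
        (fun h => hbc (inv_inj hbp hcp h))
    · intro B hB B' hB' h
      simp only [coe_filter, Set.mem_setOf_eq] at hB hB'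
      exact im_inj hB.2 hB'.2 h
    · intro L hL
      rw [mem_coe, mem_filter] at hL
      obtain ⟨hL, h0⟩ := hL
      obtain ⟨u, hu, v, hv, huv⟩ := exists_two hL
      have hL' := eq_lineOf hL hu hv huv
      have hu' := line_subset hL hu
      have hv' := line_subset hL hv
      rw [mem_insert] at hu' hv'
      have hu'' := hu'.resolve_left (fun h => h0 (h ▸ hu))
      have hv'' := hv'.resolve_left (fun h => h0 (h ▸ hv))
      obtain ⟨b, hb, hbp, rfl⟩ := mem_im.1 hu''
      obtain ⟨c, hc, hcp, rfl⟩ := mem_im.1 hv''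
      have hbc : b ≠ c := fun h => huv (by rw [h])
      have hcr : cr p b c ≠ 0 := by
        rw [Ne, ← cr_inv0_eq hbp hcp]
        intro h
        apply h0
        rw [hL', mem_lineOf]
        refine ⟨mem_insert_self _ _, ?_⟩
        have : cr 0 (inv p b) (inv p c) = cr (inv p b) (inv p c) 0 := by
          simp [cr]; ring
        rw [← this, h]
      refine ⟨blk P p b c, ?_, ?_⟩
      · simp only [coe_filter, Set.mem_setOf_eq]
        exact ⟨mem_circs.2 ⟨p, hp, b, hb, c, hc, hcr, rfl⟩, mem_blk.2 ⟨hp, mem_Z1 _ _ _⟩⟩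
      · show im p (blk P p b c) = L
        rw [im_blk' hbp hcp hcr, ← hL']
    · intro B hB
      rw [mem_filter] at hB
      have := card_im hB.2
      show 4 - (B.card : ℤ) = 3 - ((im p B).card : ℤ)
      rw [← this]
      push_cast
      ring
  · symm
    apply Finset.sum_nbij (fun B => insert 0 (im p B))
    · intro B hB
      rw [mem_filter] at hB
      obtain ⟨hB1, hpB⟩ := hB
      obtain ⟨b, hb, hbp⟩ := exists_one_more hpB (line_card hB1)
      have e := eq_lineOf hB1 hpB hb hbp.symm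
      have hsub : B ⊆ P := line_subset hB1
      rw [mem_filter]
      refine ⟨?_, mem_insert_self _ _⟩
      show insert 0 (im p B) ∈ lines (insert 0 (im p P))
      rw [e, im_line hbp]
      exact lineOf_mem_lines (mem_insert_self _ _)
        (mem_insert_of_mem (mem_im.2 ⟨b, hsub hb, hbp, rfl⟩)) (inv_ne_zero hbp).symm
    · intro B hB B' hB' h
      simp only [coe_filter, Set.mem_setOf_eq] at hB hB'
      have h' : insert 0 (im p B) = insert 0 (im p B') := h
      have e : im p B = im p B' := by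
        have h1 := zero_notMem_im p B
        have h2 := zero_notMem_im p B'
        rw [← erase_insert h1, h', erase_insert h2]
      exact im_inj hB.2 hB'.2 e
    · intro L hL
      rw [mem_coe, mem_filter] at hL
      obtain ⟨hL, h0⟩ := hL
      obtain ⟨v, hv, hv0⟩ := exists_one_more h0 (line_card hL)
      have hL' := eq_lineOf hL h0 hv hv0.symm
      have hv' := line_subset hL hv
      rw [mem_insert] at hv'
      have hv'' := hv'.resolve_left hv0
      obtain ⟨b, hb, hbp, rfl⟩ := mem_im.1 hv''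
      refine ⟨lineOf P p b, ?_, ?_⟩
      · simp only [coe_filter, Set.mem_setOf_eq]
        exact ⟨lineOf_mem_lines hp hb hbp.symm, mem_lineOf.2 ⟨hp, cr_self_left _ _⟩⟩
      · show insert 0 (im p (lineOf P p b)) = L
        rw [im_line hbp, ← hL']
    · intro B hB
      rw [mem_filter] at hB
      have := card_im hB.2
      show 3 - (B.card : ℤ) = 3 - ((insert 0 (im p B)).card : ℤ)
      rw [card_insert_of_notMem (zero_notMem_im _ _), ← this]

end

end Pool.Agent.U272.Circ
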