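import Mathlib
import Pool.Agent.U272.Circ.Geo3
import Pool.Agent.U272.Circ.Abs6

/-! Circles of the Euclidean plane and blocks of point sets. -/

namespace Pool.Agent.U272.Circ

open Finset Pool.Agent.Helper543.Melchior

/-- the Euclidean plane -/
abbrev E2 := EuclideanSpace ℝ (Fin 2)

/-- The circles determined by the finite set `P`: the circles of the plane which contain at least
three points of `P`. -/
def detCircles (P : Finset E2) : Set (EuclideanGeometry.Sphere E2) :=
  {s | 3 ≤ {x : E2 | x ∈ P ∧ x ∈ s}.ncard}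

/-- `c(P)`, the number of circles determined by `P`. -/
noncomputable def numCircles (P : Finset E2) : ℕ := (detCircles P).ncard

/-- `P` is admissible: its points do not all lie on one line and not all on one circle. -/
def Admissible (P : Finset E2) : Prop :=
  ¬ Collinear ℝ (P : Set E2) ∧ ¬ EuclideanGeometry.Cospherical (P : Set E2)

noncomputable section

open scoped Classical

lemma sys {P : Finset Pt} (h3 : 3 ≤ P.card) (hne : ∀ B ∈ circs P ∪ lines P, B ≠ P) :
    Sys P (circs P) (lines P) where
  cP := fun C hC => circ_subset hC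
  lP := fun L hL => line_subset hL
  c3 := fun C hC => circ_card hC
  l2 := fun L hL => line_card hL
  disj := disj P
  lu := by
    intro L hL L' hL' x y hxy hx hy hx' hy'
    rw [eq_lineOf hL hx hy hxy, eq_lineOf hL' hx' hy' hxy]
  le := by
    intro x hx y hy hxy
    exact ⟨lineOf P x y, lineOf_mem_lines hx hy hxy, mem_lineOf.2 ⟨hx, cr_self_left _ _⟩,
      mem_lineOf.2 ⟨hy, cr_self_right _ _⟩⟩
  bu := by
    intro B hB B' hB' x y z hxy hxz hyz hx hy hz hx' hy' hz'
    rw [mem_union] at hB hB'
    rw [block_eq (mem_union.2 hB) hx hy hz hxy hxz hyz,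
      block_eq (mem_union.2 hB') hx' hy' hz' hxy hxz hyz]
  be := by
    intro x hx y hy z hz hxy hxz hyz
    refine ⟨blk P x y z, ?_, mem_blk.2 ⟨hx, mem_Z1 _ _ _⟩,
      mem_blk.2 ⟨hy, mem_Z2 _ _ _⟩, mem_blk.2 ⟨hz, mem_Z3 _ _ _⟩⟩
    rw [mem_union]
    exact mem_union.1 (block_ex hx hy hz hxy hxz hyz)
  m0 := by
    intro p hp
    have h := m0 hp h3 hne
    unfold gen at h
    convert h
  m1 := by
    intro p hp
    have h := m1 hp h3 (fun B hB => hne B (mem_union_right _ hB))
    convert h

/-- the lower bound for planar sets -/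
theorem lower {P : Finset Pt} (h15 : 15 ≤ P.card) (hne : ∀ B ∈ circs P ∪ lines P, B ≠ P) :
    gg P.card ≤ (circs P).card := by
  have h := sys (by omega) hne
  apply h.main h15
  · intro C hC
    exact card_lt_card (Finset.ssubset_iff_subset_ne.2
      ⟨circ_subset hC, hne C (mem_union_left _ hC)⟩)
  · intro C hC
    exact card_lt_card (Finset.ssubset_iff_subset_ne.2
      ⟨line_subset hC, hne C (mem_union_right _ hC)⟩)

/-- coordinates -/
def toPt (x : E2) : Pt := (x 0, x 1)

def ofPt (p : Pt) : E2 := !₂[p.1, p.2]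

lemma toPt_ofPt (p : Pt) : toPt (ofPt p) = p := by
  simp [toPt, ofPt]

lemma ofPt_toPt (x : E2) : ofPt (toPt x) = x := by
  ext i
  fin_cases i <;> simp [toPt, ofPt]

lemma toPt_inj : Function.Injective toPt := fun x y h => by
  rw [← ofPt_toPt x, ← ofPt_toPt y, h]

lemma dist_sq (x y : E2) : dist x y ^ 2 = nn (toPt x) (toPt y) := by
  rw [EuclideanSpace.dist_eq, Real.sq_sqrt (by positivity)]
  simp [nn, toPt, Fin.sum_univ_two, Real.dist_eq, sq_abs]

lemma mem_sphere_iff {s : EuclideanGeometry.Sphere E2} (hs : 0 ≤ s.radius) {x : E2} :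
    x ∈ s ↔ nn (toPt x) (toPt s.center) = s.radius ^ 2 := by
  rw [EuclideanGeometry.mem_sphere, ← dist_sq]
  constructor
  · intro h; rw [h]
  · intro h
    have := (sq_eq_sq₀ dist_nonneg hs).1 h
    exact this

lemma radius_nonneg {s : EuclideanGeometry.Sphere E2} {x : E2} (h : x ∈ s) : 0 ≤ s.radius := by
  rw [EuclideanGeometry.mem_sphere] at h
  rw [← h]; exact dist_nonneg

/-- three distinct points of a circle are not collinear -/
lemma cr_of_circle {a b c o : Pt} {R : ℝ} (ha : nn a o = R) (hb : nn b o = R) (hc : nn c o = R)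
    (hab : a ≠ b) (hac : a ≠ c) (hbc : b ≠ c) : cr a b c ≠ 0 := by
  intro h
  obtain ⟨s, hs1, hs2⟩ := exists_param hab h
  have e1 : c.1 = a.1 + s * (b.1 - a.1) := by linarith
  have e2 : c.2 = a.2 + s * (b.2 - a.2) := by linarith
  have key : s * (s - 1) * nn b a = 0 := by
    unfold nn at *
    rw [e1, e2] at hc
    linear_combination hc - (1 - s) * ha - s * hb
  have h1 := (nn_pos hab.symm).ne'
  have h2 : s * (s - 1) = 0 := by
    rcases mul_eq_zero.1 key with h | h
    · exact h
    · exact absurd h h1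
  rcases mul_eq_zero.1 h2 with h0 | h0
  · subst h0
    apply hac
    ext <;> linarith
  · have : s = 1 := by linarith
    subst this
    apply hbc
    ext <;> linarith

/-- membership in the block of three points of a circle -/
lemma mem_Z_circle {a b c o x : Pt} {R : ℝ} (ha : nn a o = R) (hb : nn b o = R) (hc : nn c o = R)
    (h : cr a b c ≠ 0) : x ∈ Z a b c ↔ nn x o = R := by
  have key : dt a b c x = (nn x o - R) * cr a b c := by
    unfold dt cr
    unfold nn at *
    linear_combination ((c.1 - a.1) * (x.2 - a.2) - (c.2 - a.2) * (x.1 - a.1)) * (hb - ha)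
      - ((b.1 - a.1) * (x.2 - a.2) - (b.2 - a.2) * (x.1 - a.1)) * (hc - ha)
      - ((b.1 - a.1) * (c.2 - a.2) - (b.2 - a.2) * (c.1 - a.1)) * ha
  rw [mem_Z, key, mul_eq_zero, sub_eq_zero]
  simp [h]

end

end Pool.Agent.U272.Circ
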