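import Mathlib
import Pool.Agent.U272.Circ.Bridge

/-! Circles of the Euclidean plane and blocks of point sets. -/

namespace Pool.Agent.U272.Circ

open Finset Pool.Agent.Helper543.Melchior

noncomputable section

open scoped Classical

lemma exists_circle {a b c : Pt} (h : cr a b c ≠ 0) :
    ∃ o : Pt, nn b o = nn a o ∧ nn c o = nn a o := by
  have hD : 2 * cr a b c ≠ 0 := mul_ne_zero two_ne_zero h
  obtain ⟨p, hp⟩ : ∃ p : ℝ, p * (2 * cr a b c) = (c.2 - a.2) * nn b a - (b.2 - a.2) * nn c a :=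
    ⟨((c.2 - a.2) * nn b a - (b.2 - a.2) * nn c a) / (2 * cr a b c), div_mul_cancel₀ _ hD⟩
  obtain ⟨q, hq⟩ : ∃ q : ℝ, q * (2 * cr a b c) = (b.1 - a.1) * nn c a - (c.1 - a.1) * nn b a :=
    ⟨((b.1 - a.1) * nn c a - (c.1 - a.1) * nn b a) / (2 * cr a b c), div_mul_cancel₀ _ hD⟩
  have k1 : (b.1 - a.1) * p + (b.2 - a.2) * q = nn b a / 2 := by
    apply mul_right_cancel₀ hD
    have : nn b a / 2 * (2 * cr a b c) = nn b a * cr a b c := by ring
    rw [this]
    have e : cr a b c = (b.1 - a.1) * (c.2 - a.2) - (b.2 - a.2) * (c.1 - a.1) := rfl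
    calc ((b.1 - a.1) * p + (b.2 - a.2) * q) * (2 * cr a b c)
        = (b.1 - a.1) * (p * (2 * cr a b c)) + (b.2 - a.2) * (q * (2 * cr a b c)) := by ring
      _ = nn b a * ((b.1 - a.1) * (c.2 - a.2) - (b.2 - a.2) * (c.1 - a.1)) := by
        rw [hp, hq]; ring
      _ = nn b a * cr a b c := by rw [← e]
  have k2 : (c.1 - a.1) * p + (c.2 - a.2) * q = nn c a / 2 := by
    apply mul_right_cancel₀ hD
    have : nn c a / 2 * (2 * cr a b c) = nn c a * cr a b c := by ring
    rw [this]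
    have e : cr a b c = (b.1 - a.1) * (c.2 - a.2) - (b.2 - a.2) * (c.1 - a.1) := rfl
    calc ((c.1 - a.1) * p + (c.2 - a.2) * q) * (2 * cr a b c)
        = (c.1 - a.1) * (p * (2 * cr a b c)) + (c.2 - a.2) * (q * (2 * cr a b c)) := by ring
      _ = nn c a * ((b.1 - a.1) * (c.2 - a.2) - (b.2 - a.2) * (c.1 - a.1)) := by
        rw [hp, hq]; ring
      _ = nn c a * cr a b c := by rw [← e]
  refine ⟨(a.1 + p, a.2 + q), ?_, ?_⟩
  · unfold nn at k1 ⊢
    simp only
    linear_combination (-2 : ℝ) * k1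
  · unfold nn at k2 ⊢
    simp only
    linear_combination (-2 : ℝ) * k2

/-- the point set on a sphere, in coordinates -/
def onS (P : Finset E2) (s : EuclideanGeometry.Sphere E2) : Finset Pt :=
  (P.filter (fun x => x ∈ s)).image toPt

lemma mem_onS {P : Finset E2} {s : EuclideanGeometry.Sphere E2} {y : Pt} :
    y ∈ onS P s ↔ y ∈ P.image toPt ∧ ofPt y ∈ s := by
  simp only [onS, mem_image, mem_filter]
  constructor
  · rintro ⟨x, ⟨hx, hxs⟩, rfl⟩
    refine ⟨⟨x, hx, rfl⟩, ?_⟩
    rw [ofPt_toPt]; exact hxs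
  · rintro ⟨⟨x, hx, rfl⟩, hs⟩
    rw [ofPt_toPt] at hs
    exact ⟨x, ⟨hx, hs⟩, rfl⟩

lemma card_onS (P : Finset E2) (s : EuclideanGeometry.Sphere E2) :
    (onS P s).card = {x : E2 | x ∈ P ∧ x ∈ s}.ncard := by
  rw [onS, card_image_of_injective _ toPt_inj, ← Set.ncard_coe_finset]
  congr 1
  ext x
  simp

lemma mem_det {P : Finset E2} {s : EuclideanGeometry.Sphere E2} :
    s ∈ detCircles P ↔ 3 ≤ (onS P s).card := by
  rw [card_onS]; rfl

lemma onS_mem_circs {P : Finset E2} {s : EuclideanGeometry.Sphere E2} (h : s ∈ detCircles P) :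
    onS P s ∈ circs (P.image toPt) := by
  rw [mem_det] at h
  obtain ⟨a, b, c, ha, hb, hc, hab, hac, hbc⟩ := Finset.two_lt_card_iff.1 (by omega : 2 < (onS P s).card)
  rw [mem_onS] at ha hb hc
  have hr := radius_nonneg ha.2
  have ha2 := (mem_sphere_iff hr).1 ha.2
  have hb2 := (mem_sphere_iff hr).1 hb.2
  have hc2 := (mem_sphere_iff hr).1 hc.2
  rw [toPt_ofPt] at ha2 hb2 hc2
  have hcr := cr_of_circle ha2 hb2 hc2 hab hac hbc
  rw [mem_circs]
  refine ⟨a, ha.1, b, hb.1, c, hc.1, hcr, ?_⟩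
  ext y
  rw [mem_onS, mem_blk, mem_Z_circle ha2 hb2 hc2 hcr, mem_sphere_iff hr, toPt_ofPt]

lemma finrank_E2 : Module.finrank ℝ E2 = 2 := by simp

lemma onS_inj {P : Finset E2} {s s' : EuclideanGeometry.Sphere E2} (h : s ∈ detCircles P)
    (e : onS P s = onS P s') : s = s' := by
  rw [mem_det] at h
  obtain ⟨a, b, c, ha, hb, hc, hab, hac, hbc⟩ := Finset.two_lt_card_iff.1 (by omega : 2 < (onS P s).card)
  have ha' := ha
  have hb' := hb
  have hc' := hc
  rw [e] at ha' hb' hc'
  rw [mem_onS] at ha hb hc ha' hb' hc'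
  by_contra hne
  have inj : ∀ x y : Pt, x ≠ y → ofPt x ≠ ofPt y := by
    intro x y hxy h
    apply hxy
    rw [← toPt_ofPt x, ← toPt_ofPt y, h]
  have := EuclideanGeometry.eq_of_mem_sphere_of_mem_sphere_of_finrank_eq_two finrank_E2 hne
    (inj a b hab) ha.2 hb.2 hc.2 ha'.2 hb'.2 hc'.2
  rcases this with h | h
  · exact inj a c hac h.symm
  · exact inj b c hbc h.symm

lemma onS_surj {P : Finset E2} {C : Finset Pt} (h : C ∈ circs (P.image toPt)) :
    ∃ s ∈ detCircles P, onS P s = C := by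
  have h3 := circ_card h
  obtain ⟨a, ha, b, hb, c, hc, hcr, rfl⟩ := mem_circs.1 h
  obtain ⟨o, hb2, hc2⟩ := exists_circle hcr
  have hr : 0 ≤ Real.sqrt (nn a o) := Real.sqrt_nonneg _
  have hnn : 0 ≤ nn a o := by unfold nn; positivity
  let s : EuclideanGeometry.Sphere E2 := ⟨ofPt o, Real.sqrt (nn a o)⟩
  have hs : onS P s = blk (P.image toPt) a b c := by
    ext y
    rw [mem_onS, mem_blk, mem_Z_circle rfl hb2 hc2 hcr]
    have : ofPt y ∈ s ↔ nn y o = nn a o := by
      rw [mem_sphere_iff (s := s) hr]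
      show nn (toPt (ofPt y)) (toPt (ofPt o)) = Real.sqrt (nn a o) ^ 2 ↔ _
      rw [toPt_ofPt, toPt_ofPt, Real.sq_sqrt hnn]
    rw [this]
  exact ⟨s, by rw [mem_det, hs]; exact h3, hs⟩

theorem numCircles_eq (P : Finset E2) : numCircles P = (circs (P.image toPt)).card := by
  unfold numCircles
  rw [← Set.ncard_coe_finset]
  have : ((circs (P.image toPt) : Finset (Finset Pt)) : Set (Finset Pt)) =
      (onS P) '' detCircles P := by
    ext C
    rw [mem_coe, Set.mem_image]
    constructor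
    · intro h
      obtain ⟨s, hs, e⟩ := onS_surj h
      exact ⟨s, hs, e⟩
    · rintro ⟨s, hs, rfl⟩
      exact onS_mem_circs hs
  have hinj : Set.InjOn (onS P) (detCircles P) := fun s hs s' _ e => onS_inj hs e
  rw [this, hinj.ncard_image]

/-- admissible sets are not a single block -/
lemma adm {P : Finset E2} (h : Admissible P) :
    ∀ B ∈ circs (P.image toPt) ∪ lines (P.image toPt), B ≠ P.image toPt := by
  intro B hB
  rintro rfl
  rcases mem_union.1 hB with hB | hB
  · obtain ⟨s, _, hs⟩ := onS_surj hB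
    apply h.2
    refine ⟨s.center, s.radius, ?_⟩
    intro x hx
    have : toPt x ∈ onS P s := by rw [hs]; exact mem_image_of_mem _ hx
    rw [mem_onS, ofPt_toPt] at this
    exact EuclideanGeometry.mem_sphere.1 this.2
  · obtain ⟨a, ha, b, hb, hab⟩ := exists_two hB
    apply h.1
    obtain ⟨x, hx, rfl⟩ := mem_image.1 ha
    obtain ⟨y, hy, rfl⟩ := mem_image.1 hb
    rw [collinear_iff_of_mem (mem_coe.2 hx)]
    refine ⟨y - x, ?_⟩
    intro z hz
    have hz' : toPt z ∈ P.image toPt := mem_image_of_mem _ hz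
    have hcr := line_cr hB ha hb hz'
    obtain ⟨t, ht1, ht2⟩ := exists_param hab hcr
    refine ⟨t, ?_⟩
    ext i
    fin_cases i
    · simp only [toPt] at ht1
      simp
      linarith
    · simp only [toPt] at ht2
      simp
      linarith

/-- the lower bound in the Euclidean plane -/
theorem lower_E2 {P : Finset E2} (h15 : 15 ≤ P.card) (h : Admissible P) :
    (P.card - 1).choose 2 + 1 - (P.card - 1) / 2 ≤ numCircles P := by
  rw [numCircles_eq]
  have hc : (P.image toPt).card = P.card := card_image_of_injective _ toPt_inj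
  have := lower (P := P.image toPt) (by omega) (adm h)
  rw [hc] at this
  exact this

end

end Pool.Agent.U272.Circ
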