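import Mathlib
import Pool.Agent.U272.Circ.Bridge2

/-! A set with few circles. -/

namespace Pool.Agent.U272.Circ

open Finset Pool.Agent.Helper543.Melchior

noncomputable section

open scoped Classical

/-- points of the upper half of the unit circle -/
def up (t : ℕ) : Pt := ((1 - (t : ℝ) ^ 2) / (1 + (t : ℝ) ^ 2), 2 * (t : ℝ) / (1 + (t : ℝ) ^ 2))

/-- points of the unit circle, in antipodal pairs -/
def w (i : ℕ) : Pt := if i % 2 = 0 then up (i / 2) else -up (i / 2)

lemma nn_up (t : ℕ) : nn (up t) 0 = 1 := by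
  have : (1 + (t : ℝ) ^ 2) ≠ 0 := by positivity
  unfold nn up
  simp only [Prod.fst_zero, Prod.snd_zero, sub_zero]
  field_simp
  ring

lemma nn_w (i : ℕ) : nn (w i) 0 = 1 := by
  unfold w
  split_ifs
  · exact nn_up _
  · have := nn_up (i / 2)
    unfold nn at *
    simp only [Prod.fst_neg, Prod.snd_neg, Prod.fst_zero, Prod.snd_zero, sub_zero] at *
    rw [neg_sq, neg_sq]
    exact this

lemma up_inj {s t : ℕ} (h : up s = up t) : s = t := by
  have hs : (0 : ℝ) < 1 + (s : ℝ) ^ 2 := by positivity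
  have ht : (0 : ℝ) < 1 + (t : ℝ) ^ 2 := by positivity
  have h1 := (Prod.ext_iff.1 h).1
  unfold up at h1
  simp only at h1
  rw [div_eq_div_iff hs.ne' ht.ne'] at h1
  have h2 : (s : ℝ) ^ 2 = (t : ℝ) ^ 2 := by nlinarith
  have h3 : (s : ℝ) = t := by
    have hs0 : (0 : ℝ) ≤ s := by positivity
    have ht0 : (0 : ℝ) ≤ t := by positivity
    exact (sq_eq_sq₀ hs0 ht0).1 h2
  exact_mod_cast h3

lemma up_ne_neg (s t : ℕ) : up s ≠ -up t := by
  intro h
  have hs : (0 : ℝ) < 1 + (s : ℝ) ^ 2 := by positivity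
  have ht : (0 : ℝ) < 1 + (t : ℝ) ^ 2 := by positivity
  have h1 := (Prod.ext_iff.1 h).1
  have h2 := (Prod.ext_iff.1 h).2
  unfold up at h1 h2
  simp only [Prod.fst_neg, Prod.snd_neg] at h1 h2
  have hs0 : (0 : ℝ) ≤ s := by positivity
  have ht0 : (0 : ℝ) ≤ t := by positivity
  have h3 : 0 ≤ 2 * (s : ℝ) / (1 + (s : ℝ) ^ 2) := by positivity
  have h4 : 0 ≤ 2 * (t : ℝ) / (1 + (t : ℝ) ^ 2) := by positivity
  have h5 : 2 * (s : ℝ) / (1 + (s : ℝ) ^ 2) = 0 := by linarith
  have h6 : 2 * (t : ℝ) / (1 + (t : ℝ) ^ 2) = 0 := by linarith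
  rw [div_eq_zero_iff] at h5 h6
  have h7 : (s : ℝ) = 0 := by
    rcases h5 with h | h
    · linarith
    · exact absurd h hs.ne'
  have h8 : (t : ℝ) = 0 := by
    rcases h6 with h | h
    · linarith
    · exact absurd h ht.ne'
  rw [h7, h8] at h1
  norm_num at h1

lemma w_inj {i j : ℕ} (h : w i = w j) : i = j := by
  unfold w at h
  split_ifs at h with h1 h2 h2
  · have := up_inj h; omega
  · exact absurd h (up_ne_neg _ _)
  · exact absurd h.symm (up_ne_neg _ _)
  · have := up_inj (neg_injective h); omega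

lemma w_even (i : ℕ) : w (2 * i) = up i := by
  unfold w
  have h1 : 2 * i % 2 = 0 := by omega
  have h2 : 2 * i / 2 = i := by omega
  rw [h1, h2]; simp

lemma w_odd (i : ℕ) : w (2 * i + 1) = -up i := by
  unfold w
  have h1 : ¬ (2 * i + 1) % 2 = 0 := by omega
  have h2 : (2 * i + 1) / 2 = i := by omega
  rw [if_neg h1, h2]

/-- the points on the unit circle -/
def MM (m : ℕ) : Finset Pt := (range m).image w

/-- the whole configuration -/
def PP (m : ℕ) : Finset Pt := insert 0 (MM m)

lemma card_MM (m : ℕ) : (MM m).card = m := by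
  rw [MM, card_image_of_injective _ (fun i j h => w_inj h), card_range]

lemma nn_MM {m : ℕ} {x : Pt} (h : x ∈ MM m) : nn x 0 = 1 := by
  obtain ⟨i, _, rfl⟩ := mem_image.1 h
  exact nn_w i

lemma zero_notMem (m : ℕ) : (0 : Pt) ∉ MM m := by
  intro h
  have := nn_MM h
  simp [nn] at this

lemma card_PP (m : ℕ) : (PP m).card = m + 1 := by
  rw [PP, card_insert_of_notMem (zero_notMem m), card_MM]

/-- antipodal pairs -/
def AA (m : ℕ) : Finset (Finset Pt) :=
  (range (m / 2)).image (fun i => ({w (2 * i), w (2 * i + 1)} : Finset Pt))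

lemma card_AA (m : ℕ) : (AA m).card = m / 2 := by
  rw [AA, card_image_of_injective, card_range]
  intro i j h
  have h1 : w (2 * i) ∈ ({w (2 * j), w (2 * j + 1)} : Finset Pt) := by
    have h0 : ({w (2 * i), w (2 * i + 1)} : Finset Pt) = {w (2 * j), w (2 * j + 1)} := h
    rw [← h0]; exact mem_insert_self _ _
  rw [mem_insert, mem_singleton] at h1
  rcases h1 with h1 | h1
  · have := w_inj h1; omega
  · have := w_inj h1; omega

lemma AA_sub (m : ℕ) : AA m ⊆ powersetCard 2 (MM m) := by
  intro A hA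
  obtain ⟨i, hi, rfl⟩ := mem_image.1 hA
  rw [mem_range] at hi
  rw [mem_powersetCard]
  constructor
  · intro x hx
    rw [mem_insert, mem_singleton] at hx
    rcases hx with rfl | rfl
    · exact mem_image_of_mem _ (mem_range.2 (by omega))
    · exact mem_image_of_mem _ (mem_range.2 (by omega))
  · rw [card_pair]
    intro h
    have := w_inj h
    omega

lemma circ_PP {m : ℕ} {C : Finset Pt} (hC : C ∈ circs (PP m)) (hne : C ≠ MM m) :
    0 ∈ C ∧ C.erase 0 ∈ powersetCard 2 (MM m) \ AA m := by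
  have hsub := circ_subset hC
  have h3 := circ_card hC
  have h1 : (C.erase 0) ⊆ MM m := by
    intro x hx
    rw [mem_erase] at hx
    have := hsub hx.2
    rw [PP, mem_insert] at this
    exact this.resolve_left hx.1
  have h2 : (C.erase 0).card ≤ 2 := by
    by_contra hcon
    push Not at hcon
    obtain ⟨a, b, c, ha, hb, hc, hab, hac, hbc⟩ := Finset.two_lt_card_iff.1 hcon
    have ha' := nn_MM (h1 ha)
    have hb' := nn_MM (h1 hb)
    have hc' := nn_MM (h1 hc)
    have hcr := cr_of_circle ha' hb' hc' hab hac hbc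
    apply hne
    rw [circ_eq hC (mem_of_mem_erase ha) (mem_of_mem_erase hb) (mem_of_mem_erase hc) hab hac hbc]
    ext x
    rw [mem_blk, mem_Z_circle ha' hb' hc' hcr]
    constructor
    · rintro ⟨hx, hx'⟩
      rw [PP, mem_insert] at hx
      refine hx.resolve_left ?_
      rintro rfl
      simp [nn] at hx'
    · intro hx
      exact ⟨mem_insert_of_mem hx, nn_MM hx⟩
  have h0 : 0 ∈ C := by
    by_contra h0
    rw [erase_eq_of_notMem h0] at h2
    omega
  refine ⟨h0, ?_⟩
  rw [mem_sdiff, mem_powersetCard]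
  have h4 : (C.erase 0).card = 2 := by
    rw [card_erase_of_mem h0] at h2 ⊢
    omega
  refine ⟨⟨h1, h4⟩, ?_⟩
  intro hA
  obtain ⟨i, _, hi⟩ := mem_image.1 hA
  have ha : w (2 * i) ∈ C := by
    apply mem_of_mem_erase (a := 0)
    rw [← hi]; simp
  have hb : w (2 * i + 1) ∈ C := by
    apply mem_of_mem_erase (a := 0)
    rw [← hi]; simp
  have hab : w (2 * i) ≠ w (2 * i + 1) := by
    intro h
    have := w_inj h
    omega
  have ha0 : w (2 * i) ≠ 0 := by
    intro h
    have := nn_w (2 * i)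
    rw [h] at this
    simp [nn] at this
  have hb0 : w (2 * i + 1) ≠ 0 := by
    intro h
    have := nn_w (2 * i + 1)
    rw [h] at this
    simp [nn] at this
  apply circ_cr hC ha hb h0 hab ha0 hb0
  rw [w_even, w_odd]
  simp [cr]
  ring

lemma card_circs_PP (m : ℕ) (_hm : 3 ≤ m) : (circs (PP m)).card + m / 2 ≤ m.choose 2 + 1 := by
  have h1 : ((circs (PP m)).erase (MM m)).card ≤ (powersetCard 2 (MM m) \ AA m).card := by
    apply card_le_card_of_injOn (fun C => C.erase 0)
    · intro C hC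
      rw [mem_coe, mem_erase] at hC
      exact (circ_PP hC.2 hC.1).2
    · intro C hC C' hC' h
      rw [mem_coe, mem_erase] at hC hC'
      have h1 := (circ_PP hC.2 hC.1).1
      have h2 := (circ_PP hC'.2 hC'.1).1
      have h3 : C.erase 0 = C'.erase 0 := h
      rw [← insert_erase h1, h3, insert_erase h2]
  rw [card_sdiff_of_subset (AA_sub m), card_powersetCard, card_MM, card_AA] at h1
  have h2 : m / 2 ≤ m.choose 2 := by
    have := card_le_card (AA_sub m)
    rw [card_powersetCard, card_MM, card_AA] at this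
    exact this
  have h3 := pred_card_le_card_erase (s := circs (PP m)) (a := MM m)
  omega

/-- the configuration in the Euclidean plane -/
def QQ (m : ℕ) : Finset E2 := (PP m).image ofPt

lemma ofPt_inj : Function.Injective ofPt := fun x y h => by
  rw [← toPt_ofPt x, ← toPt_ofPt y, h]

lemma card_QQ (m : ℕ) : (QQ m).card = m + 1 := by
  rw [QQ, card_image_of_injective _ ofPt_inj, card_PP]

lemma image_QQ (m : ℕ) : (QQ m).image toPt = PP m := by
  rw [QQ, image_image]
  have : toPt ∘ ofPt = id := by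
    funext x
    exact toPt_ofPt x
  rw [this, image_id]

lemma numCircles_QQ {m : ℕ} (hm : 3 ≤ m) : numCircles (QQ m) ≤ m.choose 2 + 1 - m / 2 := by
  rw [numCircles_eq, image_QQ]
  have := card_circs_PP m hm
  omega

lemma mem_QQ {m i : ℕ} (h : i < m) : ofPt (w i) ∈ QQ m :=
  mem_image_of_mem _ (mem_insert_of_mem (mem_image_of_mem _ (mem_range.2 h)))

lemma zero_mem_QQ (m : ℕ) : ofPt 0 ∈ QQ m :=
  mem_image_of_mem _ (mem_insert_self _ _)

lemma w0 : w 0 = (1, 0) := by
  have := w_even 0
  rw [mul_zero] at this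
  rw [this]; simp [up]

lemma w1 : w 1 = (-1, 0) := by
  have := w_odd 0
  rw [mul_zero, zero_add] at this
  rw [this]; simp [up]

lemma w2 : w 2 = (0, 1) := by
  have := w_even 1
  rw [mul_one] at this
  rw [this]
  norm_num [up]

lemma adm_QQ {m : ℕ} (hm : 3 ≤ m) : Admissible (QQ m) := by
  constructor
  · intro h
    rw [collinear_iff_of_mem (mem_coe.2 (zero_mem_QQ m))] at h
    obtain ⟨v, hv⟩ := h
    obtain ⟨r, hr⟩ := hv _ (mem_coe.2 (mem_QQ (show 0 < m by omega)))
    obtain ⟨s, hs⟩ := hv _ (mem_coe.2 (mem_QQ (show 2 < m by omega)))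
    rw [w0] at hr
    rw [w2] at hs
    have a0 := congrArg (fun x : E2 => x 0) hr
    have a1 := congrArg (fun x : E2 => x 1) hr
    have b0 := congrArg (fun x : E2 => x 0) hs
    have b1 := congrArg (fun x : E2 => x 1) hs
    simp [ofPt] at a0 a1 b0 b1
    rcases b0 with h0 | h0
    · rw [h0] at b1; simp at b1
    · rw [h0] at a0; simp at a0
  · rintro ⟨o, r, h⟩
    have h0 := h _ (mem_coe.2 (zero_mem_QQ m))
    have h1 := h _ (mem_coe.2 (mem_QQ (show 0 < m by omega)))
    have h2 := h _ (mem_coe.2 (mem_QQ (show 1 < m by omega)))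
    have e0 := dist_sq (ofPt 0) o
    have e1 := dist_sq (ofPt (w 0)) o
    have e2 := dist_sq (ofPt (w 1)) o
    rw [h0, toPt_ofPt] at e0
    rw [h1, toPt_ofPt, w0] at e1
    rw [h2, toPt_ofPt, w1] at e2
    unfold nn at e0 e1 e2
    simp only [Prod.fst_zero, Prod.snd_zero] at e0 e1 e2
    nlinarith

/-- the value of the minimum for at least 15 points -/
theorem min_circles {n : ℕ} (hn : 15 ≤ n) :
    IsLeast {k : ℕ | ∃ P : Finset E2, P.card = n ∧ Admissible P ∧ numCircles P = k}
      ((n - 1).choose 2 + 1 - (n - 1) / 2) := by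
  constructor
  · refine ⟨QQ (n - 1), ?_, adm_QQ (by omega), ?_⟩
    · rw [card_QQ]; omega
    · apply le_antisymm (numCircles_QQ (by omega))
      have hc : (QQ (n - 1)).card = n := by rw [card_QQ]; omega
      have := lower_E2 (P := QQ (n - 1)) (by omega) (adm_QQ (by omega))
      rw [hc] at this
      exact this
  · rintro k ⟨P, hP, hadm, rfl⟩
    have := lower_E2 (by omega) hadm
    rw [hP] at this
    exact this

end

end Pool.Agent.U272.Circ
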